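import Pool.Agent.P.MP_26a8c3_nt.QL.Asm
import Pool.Agent.P.MP_26a8c3_nt.QO.Div

/-! The crude quadratic large sieve on the Eisenstein integers. -/

namespace Pool.Agent.P.MP_26a8c3_nt.QL

open Pool.Agent.P.MP_26a8c3_nt.QO

theorem ok : Ok where
  le := norm_eta_le
  real := conj_eta
  mul := eta_mul
  sq := fun n t hn => by rw [eta_pow, eta_sq hn]
  mu_le := norm_mu_le
  mu_one := mu_one
  mu_sum := fun _ t hn => mu_sum hn t
  cnt := ⟨13, fun _ hy => card_ball_erase hy⟩
  dvb := fun _ hε => dv_le hε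
  zeta := ⟨_, fun s => by
    simpa only [one_div] using
      (summable_N_inv_pow le_rfl).sum_le_tsum s fun _ _ => by positivity⟩
  sumG := fun _ hV => summable_G hV

theorem ls (A : Alg) : S_LS := ls_of_ok ok A

end Pool.Agent.P.MP_26a8c3_nt.QL
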