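import Pool.Agent.P.MP_26a8c3_nt.QL.Sep

/-! The dual sum of the quadratic large sieve. -/

namespace Pool.Agent.P.MP_26a8c3_nt.QL

open Finset Pool.Agent.P.MP_26a8c3_nt.QO
open scoped Classical ComplexConjugate

namespace Db

lemma mem_ball {y : ℝ} {x : O} : x ∈ ball y ↔ (N x : ℝ) ≤ y := by simp [ball]

lemma mem_pdiv {c d : O} (hc : c ≠ 0) : d ∈ pdiv c ↔ Primary d ∧ d ∣ c := by
  rw [pdiv, mem_filter, mem_ball]
  exact ⟨fun h => h.2, fun h => ⟨by exact_mod_cast N_le_of_dvd h.2 hc, h⟩⟩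

lemma mul_quo {a e : O} (h : e ∣ a) : e * quo a e = a := by
  rw [quo, dif_pos h]; exact h.choose_spec.symm

lemma sqo_ne {n : O} (h : SQO n) : n ≠ 0 := h.1.1.ne_zero

lemma sqo_quo {a e : O} (ha : SQO a) (he : Primary e) (h : e ∣ a) : SQO (quo a e) := by
  have h1 := mul_quo h
  have h2 : quo a e ∣ a := Dvd.intro_left e h1
  exact ⟨⟨Primary.of_mul (h1.symm ▸ ha.1.1) he, ha.1.2.squarefree_of_dvd h2⟩,
    IsCoprime.of_isCoprime_of_dvd_left ha.2 h2⟩

lemma num {K P R R0 F : ℝ} {M : ℝ → ℝ} (hM : Sc M) (hK : 1 ≤ K) (hP : 1 ≤ P) (hR0 : 1 ≤ R0)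
    (hR : R0 ≤ R) (hF : 1 ≤ F) :
    P * F / R0 * (√(R0 ^ 2 / (P * F ^ 2) / K) * R + M (R0 ^ 2 / (P * F ^ 2))) ≤
      √(P / K) * R + P / R * M (R ^ 2 / P) := by
  have hP0 : 0 < P := by linarith
  have hK0 : 0 < K := by linarith
  have h0 : 0 < R0 := by linarith
  have hRp : 0 < R := by linarith
  have hF0 : 0 < F := by linarith
  have h1 : P * F / R0 * √(R0 ^ 2 / (P * F ^ 2) / K) = √(P / K) := by
    have : P / K = (P * F / R0) ^ 2 * (R0 ^ 2 / (P * F ^ 2) / K) := by field_simp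
    rw [this, Real.sqrt_mul (by positivity), Real.sqrt_sq (by positivity)]
  have hz1 : R0 ≤ R * F := hR.trans (le_mul_of_one_le_right hRp.le hF)
  have hz : 1 ≤ (R * F / R0) ^ 2 := one_le_pow₀ ((one_le_div h0).2 hz1)
  have h2 := hM.2.1 (R ^ 2 / P) _ (by positivity) hz
  have h3 : R ^ 2 / P / (R * F / R0) ^ 2 = R0 ^ 2 / (P * F ^ 2) := by field_simp
  rw [h3] at h2
  have h4 := hM.1 (R ^ 2 / P) (by positivity)
  have h5 : P * F / R0 * (M (R ^ 2 / P) / (R * F / R0) ^ 2) =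
      P / R * M (R ^ 2 / P) * (R0 / (R * F)) := by field_simp
  have h6 : R0 / (R * F) ≤ 1 := (div_le_one (by positivity)).2 hz1
  rw [mul_add, ← mul_assoc, h1]
  refine add_le_add le_rfl ((mul_le_mul_of_nonneg_left h2 (by positivity)).trans ?_)
  rw [h5]
  exact mul_le_of_le_one_right (by positivity) h6

lemma sum_quo {β : Type*} [AddCommMonoid β] (S : Finset O) (e : O) (F : O → O → β) :
    ∑ m ∈ S.filter (e ∣ ·), F m (quo m e) =
      ∑ m ∈ (S.filter (e ∣ ·)).image (quo · e), F (e * m) m := by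
  rw [sum_image]
  · exact sum_congr rfl fun m hm => by rw [mul_quo (mem_filter.1 hm).2]
  · intro m hm n hn h
    rw [← mul_quo (mem_filter.1 hm).2, ← mul_quo (mem_filter.1 hn).2]
    exact congrArg _ h

lemma swap {R0 : ℝ} {S : Finset O} (hS : In S R0) (F : O → O → O → ℂ) :
    ∑ m ∈ S, ∑ n ∈ S, ∑ e ∈ (pdiv m).filter (· ∣ n), F e m n =
      ∑ e ∈ (ball R0).filter Primary, ∑ m ∈ S.filter (e ∣ ·), ∑ n ∈ S.filter (e ∣ ·), F e m n := by
  have h1 : ∀ m ∈ S, ∀ n, ∑ e ∈ (pdiv m).filter (· ∣ n), F e m n =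
      ∑ e ∈ (ball R0).filter Primary, if e ∣ m then if e ∣ n then F e m n else 0 else 0 := by
    intro m hm n
    rw [← sum_filter, ← sum_filter]
    refine sum_congr (Finset.ext fun e => ?_) fun _ _ => rfl
    simp only [mem_filter, mem_pdiv (sqo_ne (hS m hm).1), mem_ball]
    refine ⟨fun h => ⟨⟨⟨le_trans ?_ (hS m hm).2, h.1.1⟩, h.1.2⟩, h.2⟩,
      fun h => ⟨⟨h.1.1.2, h.1.2⟩, h.2⟩⟩
    exact_mod_cast N_le_of_dvd h.1.2 (sqo_ne (hS m hm).1)
  rw [sum_congr rfl fun m hm => sum_congr rfl fun n _ => h1 m hm n,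
    sum_congr rfl fun m _ => sum_comm, sum_comm]
  refine sum_congr rfl fun e _ => ?_
  rw [sum_filter]
  refine sum_congr rfl fun m _ => ?_
  split_ifs
  · rw [sum_filter]
  · simp

lemma sum_nr {R0 D : ℝ} {S : Finset O} (hS : In S R0) (a : O → ℂ) (hD : ∀ n ∈ S, dv n ≤ D) :
    ∑ e ∈ (ball R0).filter Primary, nr (S.filter (e ∣ ·)) a ≤ D * nr S a := by
  simp only [nr, sum_filter (s := S)]
  rw [sum_comm, mul_sum]
  refine sum_le_sum fun n hn => ?_
  rw [← sum_filter, sum_const, nsmul_eq_mul]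
  refine mul_le_mul_of_nonneg_right (le_trans ?_ (hD n hn)) (by positivity)
  rw [dv]
  refine Nat.cast_le.2 (card_le_card fun e he => ?_)
  simp only [mem_filter] at he
  exact (mem_pdiv (sqo_ne (hS n hn).1)).2 ⟨he.1.2, he.2⟩

end Db

open Db Sp in
theorem pDualB (k : Ok) (hs : S_Sep) : S_DualB := by
  intro ε hε
  obtain ⟨C, hC, hs⟩ := hs (ε / 3) (by positivity)
  obtain ⟨D, hD, hd⟩ := k.dvb (ε / 3) (by positivity)
  refine ⟨C * D * D, by positivity, ?_⟩
  intro K P R β R0 M S a hK hP hβ hR0 hR hM hst hS hlo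
  have h0 : 0 < R0 := by linarith
  have hP0 : 0 < P := by linarith
  have hRp : 0 < R := by linarith
  set Q : ℝ := √(P / K) * R + P / R * M (R ^ 2 / P) with hQ
  have hQ0 : 0 ≤ Q := by have := hM.1 (R ^ 2 / P) (by positivity); positivity
  set r : ℝ := R0 ^ (ε / 3) with hr
  have hr0 : 0 < r := Real.rpow_pos_of_pos h0 _
  have hdv : ∀ n : O, n ≠ 0 → (N n : ℝ) ≤ R0 → dv n ≤ D * r := fun n hn h =>
    (hd n hn).trans (mul_le_mul_of_nonneg_left
      (Real.rpow_le_rpow (Nat.cast_nonneg _) h (by positivity)) hD.le)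
  have one : ∀ e f : O, Primary e → Primary f →
      ‖∑ m ∈ S.filter (e ∣ ·), ∑ n ∈ S.filter (e ∣ ·), a m * conj (a n) *
        (mu e * mu f * ((P * N f / √(N m * N n) : ℝ) : ℂ) *
          BigS K (quo m e) (quo n e) (N m * N n / (P * (N f : ℝ) ^ 2)))‖ ≤
      C * r * β * Q * nr (S.filter (e ∣ ·)) a := by
    intro e f he hf
    have hF := one_le_N hf.ne_zero
    have hA : 1 ≤ P * (N f : ℝ) ^ 2 := one_le_mul_of_one_le_of_one_le hP (one_le_pow₀ hF)
    have hmem : ∀ n ∈ (S.filter (e ∣ ·)).image (quo · e), e * n ∈ S ∧ SQO n := by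
      intro n hn
      obtain ⟨m, hm, rfl⟩ := mem_image.1 hn
      rw [mem_filter] at hm
      exact ⟨by rw [mul_quo hm.2]; exact hm.1, sqo_quo (hS m hm.1).1 he hm.2⟩
    have h1 := hs K R β R0 _ M ((S.filter (e ∣ ·)).image (quo · e)) (fun n => a (e * n))
      (fun n => (N (e * n) : ℝ)) hK hβ hR0 hR hA hM hst
      (fun n hn => ⟨(hmem n hn).2, le_trans (by
        exact_mod_cast N_le_of_dvd (Dvd.intro_left e rfl) (sqo_ne (hS _ (hmem n hn).1).1))
        ((hS _ (hmem n hn).1).2.trans hR)⟩)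
      (fun n hn => ⟨hlo _ (hmem n hn).1, (hS _ (hmem n hn).1).2⟩)
    have h2 : nr ((S.filter (e ∣ ·)).image (quo · e)) (fun n => a (e * n)) =
        nr (S.filter (e ∣ ·)) a := (sum_quo S e fun m _ => ‖a m‖ ^ 2).symm
    have h3 : ∑ m ∈ S.filter (e ∣ ·), ∑ n ∈ S.filter (e ∣ ·), a m * conj (a n) *
        (mu e * mu f * ((P * N f / √(N m * N n) : ℝ) : ℂ) *
          BigS K (quo m e) (quo n e) (N m * N n / (P * (N f : ℝ) ^ 2))) =
        mu e * mu f * ((P * N f : ℝ) : ℂ) * ∑ m ∈ (S.filter (e ∣ ·)).image (quo · e),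
          ∑ n ∈ (S.filter (e ∣ ·)).image (quo · e), a (e * m) * conj (a (e * n)) *
            (((1 / √((N (e * m) : ℝ) * N (e * n)) : ℝ) : ℂ) *
              BigS K m n (N (e * m) * N (e * n) / (P * (N f : ℝ) ^ 2))) := by
      rw [← sum_quo S e fun m m' => ∑ n ∈ (S.filter (e ∣ ·)).image (quo · e),
        a m * conj (a (e * n)) * (((1 / √((N m : ℝ) * N (e * n)) : ℝ) : ℂ) *
          BigS K m' n (N m * N (e * n) / (P * (N f : ℝ) ^ 2))), mul_sum]
      refine sum_congr rfl fun m _ => ?_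
      rw [← sum_quo S e fun n n' => a m * conj (a n) * (((1 / √((N m : ℝ) * N n) : ℝ) : ℂ) *
          BigS K (quo m e) n' (N m * N n / (P * (N f : ℝ) ^ 2))), mul_sum]
      refine sum_congr rfl fun n _ => ?_
      push_cast
      ring
    rw [h2] at h1
    rw [h3, norm_mul]
    have h4 : ‖mu e * mu f * ((P * N f : ℝ) : ℂ)‖ ≤ P * N f := by
      rw [norm_mul, norm_mul, Complex.norm_real, Real.norm_of_nonneg (by positivity)]
      exact mul_le_of_le_one_left (by positivity)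
        (mul_le_one₀ (k.mu_le _) (norm_nonneg _) (k.mu_le _))
    have h5 := num hM hK hP hR0 hR hF
    have h6 := nr_nonneg (S.filter (e ∣ ·)) a
    refine (mul_le_mul h4 h1 (norm_nonneg _) (by positivity)).trans ?_
    calc _ = C * r * β * (P * N f / R0 * (√(R0 ^ 2 / (P * (N f : ℝ) ^ 2) / K) * R +
          M (R0 ^ 2 / (P * (N f : ℝ) ^ 2)))) * nr (S.filter (e ∣ ·)) a := by ring
      _ ≤ _ := by gcongr
  simp only [Dual, mul_sum]
  rw [swap hS]
  have h7 : ∀ e ∈ (ball R0).filter Primary,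
      ‖∑ m ∈ S.filter (e ∣ ·), ∑ n ∈ S.filter (e ∣ ·), ∑ f ∈ pdiv e, a m * conj (a n) *
        (mu e * mu f * ((P * N f / √(N m * N n) : ℝ) : ℂ) *
          BigS K (quo m e) (quo n e) (N m * N n / (P * (N f : ℝ) ^ 2)))‖ ≤
      D * r * (C * r * β * Q) * nr (S.filter (e ∣ ·)) a := by
    intro e he
    rw [mem_filter, mem_ball] at he
    rw [sum_congr rfl fun m _ => sum_comm, sum_comm]
    refine (norm_sum_le _ _).trans ((sum_le_sum fun f hf =>
      one e f he.2 ((mem_pdiv he.2.ne_zero).1 hf).1).trans ?_)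
    rw [sum_const, nsmul_eq_mul, mul_assoc (D * r)]
    have h6 := nr_nonneg (S.filter (e ∣ ·)) a
    exact mul_le_mul_of_nonneg_right (hdv e he.2.ne_zero he.1) (by positivity)
  refine (norm_sum_le _ _).trans ((sum_le_sum h7).trans ?_)
  rw [← mul_sum]
  have h8 := sum_nr hS a fun n hn => hdv n (sqo_ne (hS n hn).1) (hS n hn).2
  refine (mul_le_mul_of_nonneg_left h8 (by positivity)).trans (le_of_eq ?_)
  have h9 : R0 ^ ε = r * r * r := by
    rw [hr, ← Real.rpow_add h0, ← Real.rpow_add h0]; congr 1; ring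
  rw [h9]; ring

end Pool.Agent.P.MP_26a8c3_nt.QL
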