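import Pool.Agent.P.MP_26a8c3_nt.QL.St

/-! Sorting a sum over the Eisenstein integers by the squarefree part of the argument. -/

namespace Pool.Agent.P.MP_26a8c3_nt.QL

open Finset Pool.Agent.P.MP_26a8c3_nt.QO
open scoped Classical ComplexConjugate

namespace Fib

/-- every nonzero element is a squarefree element times a square -/
lemma ex_sq (x : O) : x ≠ 0 → ∃ w t : O, Squarefree w ∧ x = w * t ^ 2 := by
  induction' hn : N x using Nat.strong_induction_on with n ih generalizing x
  intro hx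
  by_cases h : Squarefree x
  · exact ⟨x, 1, h, by ring⟩
  · rw [Squarefree] at h
    push Not at h
    obtain ⟨p, ⟨y, hy⟩, hp⟩ := h
    have hy0 : y ≠ 0 := by rintro rfl; exact hx (by simpa using hy)
    have hp0 : p ≠ 0 := by rintro rfl; exact hx (by simpa using hy)
    have h1 : 1 < N p := by
      have a := N_pos hp0
      have b : N p ≠ 1 := fun e => hp (isUnit_iff_N.2 e)
      omega
    have h2 : N y < n := by
      rw [← hn, hy, map_mul, map_mul]
      have a := N_pos hy0
      nlinarith [Nat.mul_pos a a, Nat.mul_le_mul h1 h1]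
    obtain ⟨w, t, hw, e⟩ := ih _ h2 y rfl hy0
    exact ⟨w, p * t, hw, by rw [hy, e]; ring⟩

/-- the square part is unique up to a unit -/
lemma dvd_of_eq {w w' t t' : O} (hw' : Squarefree w') (ht : t ≠ 0)
    (h : w * t ^ 2 = w' * t' ^ 2) : t ∣ t' := by
  obtain ⟨a, b, ha, hb, hu⟩ := extract_gcd t t'
  set g := gcd t t' with hg
  have hg0 : g ≠ 0 := by rintro e; exact ht (by rw [ha, e, zero_mul])
  have h1 : w * a ^ 2 = w' * b ^ 2 := by
    apply mul_left_cancel₀ (pow_ne_zero 2 hg0)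
    have : w * (g * a) ^ 2 = w' * (g * b) ^ 2 := by rw [← ha, ← hb]; exact h
    linear_combination this
  have hc : IsCoprime a b := (gcd_isUnit_iff a b).1 hu
  have h2 : a ^ 2 ∣ w' := (hc.pow (m := 2) (n := 2)).dvd_of_dvd_mul_right ⟨w, by rw [← h1]; ring⟩
  have h3 : IsUnit a := hw' a (by rwa [← sq])
  obtain ⟨v, rfl⟩ := h3
  refine ⟨(v⁻¹ : Oˣ) * b, ?_⟩
  have : ((v : O) * (v⁻¹ : Oˣ)) = 1 := by simp
  rw [hb, ha]
  linear_combination (-(g * b)) * this

lemma uniq {w w' t t' : O} (hw : Squarefree w) (hw' : Squarefree w') (ht : t ≠ 0) (ht' : t' ≠ 0)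
    (h : w * t ^ 2 = w' * t' ^ 2) : ∃ u : O, IsUnit u ∧ w = w' * u ^ 4 ∧ t = u * t' := by
  obtain ⟨u, hu⟩ := associated_of_dvd_dvd (dvd_of_eq hw ht' h.symm) (dvd_of_eq hw' ht h)
  refine ⟨u, u.isUnit, ?_, by rw [← hu, mul_comm]⟩
  have h6 := unit_pow_six u.isUnit
  have h1 : w * (u : O) ^ 2 = w' := by
    apply mul_right_cancel₀ (pow_ne_zero 2 ht')
    rw [← h, ← hu]; ring
  rw [← h1]
  linear_combination (-w) * h6

lemma ex_pair (x : O) : ∃ p : O × O, p.2 ≠ 0 ∧ x = p.1 * p.2 ^ 2 ∧ (x ≠ 0 → Squarefree p.1) := by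
  by_cases hx : x = 0
  · exact ⟨(0, 1), one_ne_zero, by simp [hx], fun h => absurd hx h⟩
  · obtain ⟨w, t, hw, e⟩ := ex_sq x hx
    exact ⟨(w, t), fun h => hx (by rw [e, show t = 0 from h]; ring), e, fun _ => hw⟩

end Fib

open Fib in
theorem pFib : S_Fib := by
  intro K F hF
  have hS : Summable F := hF.of_norm
  choose q hq0 hq1 hq2 using ex_pair
  set D := (ball K).filter Squarefree with hD
  have memD : ∀ w, w ∈ D ↔ (N w : ℝ) ≤ K ∧ Squarefree w := fun w => by simp [hD, ball]
  let g : O × units6 → O × O := fun z => ((q z.1).1 * z.2.1 ^ 4, z.2.1 * (q z.1).2)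
  have hg : ∀ z : O × units6, (g z).1 * (g z).2 ^ 2 = z.1 := fun z => by
    have h6 := unit_pow_six (mem_units6.1 z.2.2)
    have := hq1 z.1
    simp only [g]
    linear_combination ((q z.1).1 * (q z.1).2 ^ 2) * h6 - this
  have ginj : Function.Injective g := by
    rintro ⟨x, u⟩ ⟨y, v⟩ h
    have e : x = y := by
      have a := hg (x, u)
      have b := hg (y, v)
      rw [h] at a
      exact a.symm.trans b
    subst e
    have := congrArg Prod.snd h
    simp only [g] at this
    rw [Subtype.ext (mul_right_cancel₀ (hq0 x) this)]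
  let H : O × O → ℂ := fun p => if p.1 ∈ D then (if p.2 = 0 then 0 else F (p.1 * p.2 ^ 2)) else 0
  let Z : O → ℂ := fun x => if x ≠ 0 ∧ ¬ Big K x then F x else 0
  have hH : ∀ z, H (g z) = Z z.1 := by
    rintro ⟨x, u⟩
    have hu := mem_units6.1 u.2
    have h2 : (g (x, u)).2 ≠ 0 := mul_ne_zero hu.ne_zero (hq0 x)
    have hN : N (g (x, u)).1 = N (q x).1 := by
      simp only [g, map_mul, map_pow, isUnit_iff_N.1 hu]; ring
    have hs : Squarefree (g (x, u)).1 ↔ Squarefree (q x).1 :=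
      (associated_mul_unit_left _ _ (hu.pow 4)).squarefree_iff
    simp only [H, Z, if_neg h2, hg, memD, hN, hs]
    refine if_congr ⟨fun h => ⟨?_, fun hb => ?_⟩, fun h => ⟨?_, hq2 x h.1⟩⟩ rfl rfl
    · rw [hq1 x]; exact mul_ne_zero h.2.ne_zero (pow_ne_zero _ (hq0 x))
    · exact absurd (hb.2 _ _ h.2 (hq1 x)) (not_lt.2 h.1)
    · have hb := h.2
      rw [Big] at hb
      push Not at hb
      obtain ⟨w, t, hw, e, hK⟩ := hb h.1
      have ht : t ≠ 0 := by rintro rfl; exact h.1 (by simpa using e)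
      obtain ⟨v, hv, e1, -⟩ := uniq (hq2 x h.1) hw (hq0 x) ht ((hq1 x).symm.trans e)
      rw [e1, map_mul, map_pow, isUnit_iff_N.1 hv]
      simpa using hK
  have hsupp : ∀ p, p ∉ Set.range g → H p = 0 := by
    rintro ⟨w, t⟩ hp
    by_contra h
    simp only [H] at h
    have hw : w ∈ D := by by_contra e; exact h (if_neg e)
    have ht : t ≠ 0 := by rintro rfl; exact h (by simp)
    have hw' := ((memD w).1 hw).2
    have hx : w * t ^ 2 ≠ 0 := mul_ne_zero hw'.ne_zero (pow_ne_zero _ ht)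
    obtain ⟨v, hv, e1, e2⟩ := uniq hw' (hq2 _ hx) ht (hq0 _) (hq1 _)
    exact hp ⟨(w * t ^ 2, ⟨v, mem_units6.2 hv⟩), Prod.ext e1.symm e2.symm⟩
  have hZ : Summable Z := Summable.of_norm_bounded hF fun x => by
    simp only [Z]; split_ifs <;> simp
  have hB : Summable fun x => if Big K x then F x else 0 :=
    Summable.of_norm_bounded hF fun x => by split_ifs <;> simp
  have hZ2 : Summable fun z : O × units6 => Z z.1 := by
    refine Summable.of_norm ((summable_prod_of_nonneg fun _ => norm_nonneg _).2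
      ⟨fun _ => Summable.of_finite, ?_⟩)
    simpa using hZ.norm.mul_left _
  have hHs : Summable H := (ginj.summable_iff hsupp).1 (by simpa only [Function.comp_def, hH] using hZ2)
  have e1 : ∑' p, H p = 6 * ∑' x, Z x := by
    rw [← ginj.tsum_eq (fun p hp => by by_contra h; exact hp (hsupp p h))]
    simp only [hH]
    rw [hZ2.tsum_prod, ← tsum_mul_left]
    refine tsum_congr fun x => ?_
    simp [card_units6]
  have e2 : ∑' p, H p = ∑ w ∈ D, ∑' t : O, if t = 0 then 0 else F (w * t ^ 2) := by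
    rw [hHs.tsum_prod, tsum_eq_sum (s := D) fun w hw => by simp [H, hw]]
    exact sum_congr rfl fun w hw => by simp only [H, if_pos hw]
  have e3 : ∀ x, F x = (if x = 0 then F 0 else 0) + (if Big K x then F x else 0) + Z x := by
    intro x
    by_cases hx : x = 0
    · subst hx; simp [Z, Big]
    · by_cases hb : Big K x <;> simp [Z, hx, hb]
  have h0 : Summable fun x : O => if x = 0 then F 0 else 0 := (hasSum_ite_eq 0 (F 0)).summable
  rw [← e2, e1, tsum_congr e3, (h0.add hB).tsum_add hZ, h0.tsum_add hB, tsum_ite_eq]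
  ring

end Pool.Agent.P.MP_26a8c3_nt.QL
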