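import Pool.Agent.P.MP_26a8c3_nt.QL.St

/-! Two steps and the choice of the parameters. -/

namespace Pool.Agent.P.MP_26a8c3_nt.QL

open Finset Pool.Agent.P.MP_26a8c3_nt.QO
open scoped Classical ComplexConjugate

namespace FinP

lemma nr_nonneg (S : Finset O) (a : O → ℂ) : 0 ≤ nr S a := sum_nonneg fun _ _ => sq_nonneg _

lemma mono {P P' R R' B B' : ℝ} (h : LSB P' R' B') (hP : P ≤ P') (hR : R ≤ R') (hB : B' ≤ B) :
    LSB P R B := fun T S a hT hS =>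
  (h T S a (fun n hn => ⟨(hT n hn).1, (hT n hn).2.trans hP⟩)
    (fun n hn => ⟨(hS n hn).1, (hS n hn).2.trans hR⟩)).trans
    (mul_le_mul_of_nonneg_right hB (nr_nonneg S a))

lemma small {P R B : ℝ} (hP : P < 1) (hB : 0 ≤ B) : LSB P R B := fun T S a hT _ => by
  have : T = ∅ := eq_empty_of_forall_notMem fun n hn =>
    absurd ((one_le_N (hT n hn).1.1.1.ne_zero).trans (hT n hn).2) (not_le.2 hP)
  rw [this, sum_empty]
  exact mul_nonneg hB (nr_nonneg S a)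

lemma out_one {P R : ℝ} (hP : 1 ≤ P) (hR : 1 ≤ R) :
    Out 1 P R (fun V => R * V) ≤ 3 * (P + R ^ 2) := by
  have hP0 : 0 < P := by linarith
  have hR0 : 0 < R := by linarith
  obtain ⟨s, hs, rfl⟩ : ∃ s : ℝ, 1 ≤ s ∧ P = s ^ 4 :=
    ⟨P ^ (1 / 4 : ℝ), Real.one_le_rpow hP (by norm_num), by
      rw [← Real.rpow_natCast, ← Real.rpow_mul hP0.le]; norm_num⟩
  obtain ⟨r, hr, rfl⟩ : ∃ r : ℝ, 1 ≤ r ∧ R = r ^ 2 :=
    ⟨√R, Real.one_le_sqrt.2 hR, (Real.sq_sqrt hR0.le).symm⟩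
  have hs0 : 0 < s := by linarith
  have hr0 : 0 < r := by linarith
  have e1 : √(s ^ 4 / 1) = s ^ 2 := by
    rw [div_one, show s ^ 4 = (s ^ 2) ^ 2 by ring, Real.sqrt_sq (by positivity)]
  have e2 : (s ^ 4) ^ (1 / 4 : ℝ) = s := by
    rw [← Real.rpow_natCast, ← Real.rpow_mul hs0.le]; norm_num
  have e3 : (s ^ 4) ^ (3 / 4 : ℝ) = s ^ 3 := by
    rw [← Real.rpow_natCast, ← Real.rpow_mul hs0.le, ← Real.rpow_natCast]; norm_num
  have e4 : (r ^ 2) ^ (1 / 2 : ℝ) = r := by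
    rw [← Real.rpow_natCast, ← Real.rpow_mul hr0.le]; norm_num
  have e5 : s ^ 4 / r ^ 2 * (r ^ 2 * ((r ^ 2) ^ 2 / s ^ 4)) = (r ^ 2) ^ 2 := by field_simp
  simp only [Out]
  rw [e1, e2, e3, e4, e5]
  have h1 : s ^ 2 * r ^ 2 ≤ (s ^ 4 + (r ^ 2) ^ 2) / 2 := by nlinarith [sq_nonneg (s ^ 2 - r ^ 2)]
  have h2 : r ^ 2 * s ≤ s ^ 2 * r ^ 2 := by
    nlinarith [mul_nonneg (mul_nonneg (sq_nonneg r) hs0.le) (sub_nonneg.2 hs)]
  have h3 : s ^ 3 * r ≤ (s ^ 4 + s ^ 2 * r ^ 2) / 2 := by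
    nlinarith [sq_nonneg (s ^ 2 - s * r)]
  nlinarith [pow_pos hs0 4, pow_pos (pow_pos hr0 2) 2]

lemma out_two {R : ℝ} (hR : 1 ≤ R) :
    Out (R ^ (1 / 10 : ℝ)) (R ^ (11 / 8 : ℝ)) R (fun V => V ^ 2) ≤ 5 * R ^ (131 / 80 : ℝ) := by
  obtain ⟨t, ht, rfl⟩ : ∃ t : ℝ, 0 ≤ t ∧ R = Real.exp t :=
    ⟨Real.log R, Real.log_nonneg hR, (Real.exp_log (by linarith)).symm⟩
  simp only [Out, sq, ← Real.exp_mul, ← Real.exp_sub, ← Real.exp_half, ← Real.exp_add]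
  have h : ∀ x, x ≤ t * (131 / 80) → Real.exp x ≤ Real.exp (t * (131 / 80)) :=
    fun x hx => Real.exp_le_exp.2 hx
  refine (add_le_add (add_le_add (add_le_add (add_le_add (h _ ?_) (h _ ?_)) (h _ ?_)) (h _ ?_))
    (h _ ?_)).trans (le_of_eq (by ring)) <;> linarith

lemma pow_le {V R ε : ℝ} (hV : 0 < V) (hR : 0 < R) (h0 : 0 ≤ ε) (h1 : ε ≤ 1) :
    V ^ ε ≤ R ^ (2 * ε) * (1 + V / R ^ 2) := by
  have hx : 0 < V / R ^ 2 := by positivity
  have e : V ^ ε = R ^ (2 * ε) * (V / R ^ 2) ^ ε := by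
    rw [Real.rpow_mul hR.le, ← Real.mul_rpow (by positivity) hx.le, Real.rpow_two]
    congr 1
    field_simp
  rw [e]
  refine mul_le_mul_of_nonneg_left ?_ (by positivity)
  rcases le_total (V / R ^ 2) 1 with h | h
  · linarith [Real.rpow_le_one hx.le h h0]
  · have := Real.rpow_le_rpow_of_exponent_le h h1
    rw [Real.rpow_one] at this
    linarith

lemma sc_lin {R : ℝ} (hR : 0 ≤ R) : Sc fun V => R * V := by
  refine ⟨fun V hV => by positivity, fun V z _ _ => le_of_eq (by ring), fun V z hV hz => ?_⟩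
  have : 0 ≤ R * V * z * (z - 1) :=
    mul_nonneg (mul_nonneg (mul_nonneg hR hV.le) (by linarith)) (by linarith)
  nlinarith

lemma sc_sq : Sc fun V => V ^ 2 := by
  refine ⟨fun V _ => sq_nonneg V, fun V z _ hz => ?_, fun V z _ _ => le_of_eq (by ring)⟩
  show (V / z) ^ 2 ≤ V ^ 2 / z
  rw [div_pow]
  exact div_le_div_of_nonneg_left (sq_nonneg V) (by linarith) (by nlinarith)

/-- the first step -/
lemma first (ht : S_Triv) (hs : S_Step) {ε : ℝ} (hε : 0 < ε) : ∃ C : ℝ, 1 ≤ C ∧ ∀ P R : ℝ,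
    1 ≤ P → 1 ≤ R → LSB P R (C * R ^ ε * (P + R ^ 2)) := by
  obtain ⟨A, hA, -, hT⟩ := ht
  obtain ⟨C, hC, hS⟩ := hs ε hε
  refine ⟨3 * (C * A), by nlinarith, fun P R hP hR => ?_⟩
  have hR0 : 0 < R := by linarith
  have hy : Hy R A fun V => R * V := fun V hV => by
    refine mono (hT V R hV.le hR0.le) le_rfl le_rfl ?_
    rw [mul_assoc]
    refine mul_le_mul_of_nonneg_left ?_ (by linarith)
    have h1 : 0 ≤ V / R ^ 2 * (R + R * V) := by positivity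
    nlinarith
  refine mono (hS 1 P R A _ le_rfl hP hR hA (sc_lin hR0.le) hy) le_rfl le_rfl ?_
  have h0 : 0 ≤ C * R ^ ε * A := by
    have : 0 ≤ A := by linarith
    have : 0 ≤ C := by linarith
    positivity
  calc _ ≤ C * R ^ ε * A * (3 * (P + R ^ 2)) := mul_le_mul_of_nonneg_left (out_one hP hR) h0
    _ = _ := by ring

/-- the second step -/
lemma second (ht : S_Triv) (hd : S_Dual) (hs : S_Step) : ∃ C : ℝ, 0 < C ∧ ∀ R : ℝ, 1 ≤ R →
    LSB (R ^ (11 / 8 : ℝ)) R (C * R ^ (33 / 20 : ℝ)) := by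
  obtain ⟨A, hA, hF⟩ := first ht hs (ε := 1 / 240) (by norm_num)
  obtain ⟨C, hC, hS⟩ := hs (1 / 240) (by norm_num)
  have hA0 : 0 < A := by linarith
  have hC0 : 0 < C := by linarith
  refine ⟨80 * (C * A), by positivity, fun R hR => ?_⟩
  have hR0 : 0 < R := by linarith
  have hβ : 1 ≤ 16 * A * R ^ (2 * (1 / 240) : ℝ) := by
    have := Real.one_le_rpow hR (show (0 : ℝ) ≤ 2 * (1 / 240) by norm_num)
    nlinarith
  have hy : Hy R (16 * A * R ^ (2 * (1 / 240) : ℝ)) fun V => V ^ 2 := fun V hV => by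
    rcases lt_or_ge V 1 with h | h
    · exact small h (by positivity)
    refine mono (hd V R _ (by positivity) (hF R V hR h)) le_rfl le_rfl ?_
    have h1 := pow_le hV hR0 (ε := 1 / 240) (by norm_num) (by norm_num)
    calc _ = 16 * A * (R + V ^ 2) * V ^ (1 / 240 : ℝ) := by ring
      _ ≤ 16 * A * (R + V ^ 2) * (R ^ (2 * (1 / 240) : ℝ) * (1 + V / R ^ 2)) :=
        mul_le_mul_of_nonneg_left h1 (by positivity)
      _ = _ := by ring
  refine mono (hS (R ^ (1 / 10 : ℝ)) (R ^ (11 / 8 : ℝ)) R _ _ (Real.one_le_rpow hR (by norm_num))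
    (Real.one_le_rpow hR (by norm_num)) hR hβ sc_sq hy) le_rfl le_rfl ?_
  have e : R ^ (33 / 20 : ℝ) =
      R ^ (1 / 240 : ℝ) * R ^ (2 * (1 / 240) : ℝ) * R ^ (131 / 80 : ℝ) := by
    rw [← Real.rpow_add hR0, ← Real.rpow_add hR0]; norm_num
  calc _ ≤ C * R ^ (1 / 240 : ℝ) * (16 * A * R ^ (2 * (1 / 240) : ℝ)) * (5 * R ^ (131 / 80 : ℝ)) :=
        mul_le_mul_of_nonneg_left (out_two hR) (by positivity)
    _ = _ := by rw [e]; ring

end FinP

theorem pFin (ht : S_Triv) (hd : S_Dual) (hs : S_Step) : S_Fin := by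
  obtain ⟨C, hC, h⟩ := FinP.second ht hd hs
  refine ⟨C, hC, fun P R hP hR => ?_⟩
  rcases lt_or_ge P 1 with h1 | h1
  · exact FinP.small h1 (by positivity)
  have hQ : 1 ≤ P ^ (8 / 11 : ℝ) := Real.one_le_rpow h1 (by norm_num)
  refine FinP.mono (h (max R (P ^ (8 / 11 : ℝ))) (le_max_of_le_right hQ)) ?_ (le_max_left _ _) ?_
  · calc P = (P ^ (8 / 11 : ℝ)) ^ (11 / 8 : ℝ) := by rw [← Real.rpow_mul hP]; norm_num
      _ ≤ _ := Real.rpow_le_rpow (by positivity) (le_max_right _ _) (by norm_num)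
  · refine mul_le_mul_of_nonneg_left ?_ hC.le
    rcases le_total R (P ^ (8 / 11 : ℝ)) with h2 | h2
    · rw [max_eq_right h2, ← Real.rpow_mul hP, show (8 / 11 * (33 / 20) : ℝ) = 6 / 5 by norm_num]
      exact le_add_of_nonneg_right (by positivity)
    · rw [max_eq_left h2]
      exact le_add_of_nonneg_left (by positivity)

end Pool.Agent.P.MP_26a8c3_nt.QL
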