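import Pool.Agent.P.MP_26a8c3_nt.QL.St
import Pool.Agent.P.MP_26a8c3_nt.QO.Sym

/-! The main terms of the kernel and of its Poisson dual cancel. -/

namespace Pool.Agent.P.MP_26a8c3_nt.QL

open Finset Pool.Agent.P.MP_26a8c3_nt.QO
open scoped Classical ComplexConjugate

namespace KernP

theorem cop_zero {e : O} (he : Primary e) : cop e 0 = if e = 1 then 1 else 0 := by
  simp only [cop, isCoprime_zero_left]
  exact if_congr ⟨he.eq_one_of_isUnit, fun h => h ▸ isUnit_one⟩ rfl rfl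

theorem eta_zero (k : Ok) {e : O} (he : Primary e) : eta e 0 = if e = 1 then 1 else 0 := by
  have := k.sq e 0 he.ne_zero
  rwa [zero_pow two_ne_zero, cop_zero he] at this

theorem sum_mu (k : Ok) {e : O} (he : Primary e) :
    ∑ f ∈ pdiv e, mu f = if e = 1 then 1 else 0 := by
  have := k.mu_sum e 0 he
  rwa [filter_true_of_mem fun d _ => dvd_zero d, cop_zero he] at this

theorem sqo_quo {a e : O} (ha : SQO a) (he : Primary e) (h : e ∣ a) : SQO (quo a e) := by
  obtain ⟨h1, h2⟩ := ha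
  rw [← mul_quo h] at h1 h2
  exact ⟨h1.right he, (od_mul.1 h2).2⟩

theorem N_quo_le {a e : O} (ha : a ≠ 0) (h : e ∣ a) : (N (quo a e) : ℝ) ≤ N a := by
  exact_mod_cast N_le_of_dvd (Dvd.intro_left e (mul_quo h)) ha

theorem quo_one (a : O) : quo a 1 = a := by simpa using mul_quo (one_dvd a)

theorem w_sqrt {P n A : ℝ} (hP : 0 < P) (hn : 0 < n) (hA : 0 < A) :
    P * n / √A * √(A / (P * n ^ 2)) = √P := by
  have h1 := Real.sqrt_pos.2 hP
  have h2 := Real.sqrt_pos.2 hA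
  rw [Real.sqrt_div hA.le, Real.sqrt_mul hP.le, Real.sqrt_sq hn.le]
  nth_rw 1 [← Real.mul_self_sqrt hP.le]
  field_simp

theorem w_quart {P n A R : ℝ} (hP : 0 < P) (hn : 0 < n) (hR : 0 < R) (hA : R ^ 2 / 4 ≤ A) :
    P * n / √A * (A / (P * n ^ 2)) ^ (1 / 4 : ℝ) ≤ 2 * (P ^ (3 / 4 : ℝ) / √R * √n) := by
  have hA0 : 0 < A := lt_of_lt_of_le (by positivity) hA
  refine (pow_le_pow_iff_left₀ (by positivity) (by positivity) (by norm_num : 4 ≠ 0)).1 ?_
  have e1 : ((A / (P * n ^ 2)) ^ (1 / 4 : ℝ)) ^ 4 = A / (P * n ^ 2) := by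
    rw [← Real.rpow_natCast, ← Real.rpow_mul (by positivity)]
    norm_num
  have e2 : (P ^ (3 / 4 : ℝ)) ^ 4 = P ^ 3 := by
    rw [← Real.rpow_natCast, ← Real.rpow_mul hP.le, ← Real.rpow_natCast]
    norm_num
  have e3 : ∀ x : ℝ, 0 ≤ x → √x ^ 4 = x ^ 2 := fun x hx => by
    rw [show √x ^ 4 = (√x ^ 2) ^ 2 by ring, Real.sq_sqrt hx]
  simp only [mul_pow, div_pow, e1, e2, e3 _ hA0.le, e3 _ hR.le, e3 _ hn.le]
  have e4 : P ^ 4 * n ^ 4 / A ^ 2 * (A / (P * n ^ 2)) = P ^ 3 * n ^ 2 / A := by field_simp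
  rw [e4, div_le_iff₀ hA0]
  have e5 : 2 ^ 4 * (P ^ 3 / R ^ 2 * n ^ 2) * (R ^ 2 / 4) = 4 * (P ^ 3 * n ^ 2) := by
    field_simp
    ring
  have h6 := mul_le_mul_of_nonneg_left hA (show 0 ≤ 2 ^ 4 * (P ^ 3 / R ^ 2 * n ^ 2) by positivity)
  have h7 : 0 ≤ P ^ 3 * n ^ 2 := by positivity
  linarith

theorem norm_term (k : Ok) (e f : O) {x : ℝ} (hx : 0 ≤ x) (z : ℂ) :
    ‖mu e * mu f * (x : ℂ) * z‖ ≤ x * ‖z‖ := by
  rw [norm_mul, norm_mul, norm_mul, Complex.norm_real, Real.norm_of_nonneg hx]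
  refine mul_le_mul_of_nonneg_right ?_ (norm_nonneg _)
  exact mul_le_of_le_one_left hx (mul_le_one₀ (k.mu_le e) (norm_nonneg _) (k.mu_le f))

end KernP

open KernP in
theorem pKern (k : Ok) (hs : S_Split) (hq : S_PQ) : S_Kern := by
  intro ε hε
  obtain ⟨C1, hC1, h1⟩ := hs (ε / 3) (by positivity)
  obtain ⟨C2, hC2, h2⟩ := k.dvb (ε / 3) (by positivity)
  refine ⟨C2 + 1 + C1 + 2 * C1 * C2, by positivity,
    fun K P R0 a b hK hP hR ha hb hab a1 a2 b1 b2 => ?_⟩
  obtain ⟨mK, hm⟩ := h1 K hK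
  have hP0 : 0 < P := by linarith
  have hR0 : 0 < R0 := by linarith
  have ha0 := ha.1.ne_zero
  have hb0 := hb.1.ne_zero
  have hNa := N_pos_real ha0
  have hNb := N_pos_real hb0
  set D := (pdiv a).filter (· ∣ b) with hD
  have hmem : ∀ e ∈ D, Primary e ∧ e ∣ a ∧ e ∣ b := fun e he => by
    obtain ⟨h3, h4⟩ := mem_filter.1 he
    exact ⟨((mem_pdiv ha0).1 h3).1, ((mem_pdiv ha0).1 h3).2, h4⟩
  set A : ℝ := N a * N b with hA
  have hA0 : 0 < A := mul_pos hNa hNb
  set r := R0 ^ (ε / 3) with hr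
  have hr1 : 1 ≤ r := Real.one_le_rpow hR (by positivity)
  have hr3 : R0 ^ ε = r * r * r := by
    rw [hr, ← Real.rpow_add hR0, ← Real.rpow_add hR0]
    congr 1
    ring
  have hrr : ∀ x y : ℝ, 0 ≤ x → 0 ≤ y → x ≤ R0 → y ≤ R0 → (x * y) ^ (ε / 3) ≤ r * r :=
    fun x y hx hy h3 h4 => by
      rw [Real.mul_rpow hx hy]
      exact mul_le_mul (Real.rpow_le_rpow hx h3 (by positivity))
        (Real.rpow_le_rpow hy h4 (by positivity)) (by positivity) (by positivity)
  have hdv : ∀ e : O, e ∣ a → ((pdiv e).card : ℝ) ≤ C2 * r := fun e he => by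
    have he0 : e ≠ 0 := ne_zero_of_dvd_ne_zero ha0 he
    refine (h2 e he0).trans (mul_le_mul_of_nonneg_left (Real.rpow_le_rpow (Nat.cast_nonneg _)
      (le_trans ?_ a2) (by positivity)) hC2.le)
    exact_mod_cast N_le_of_dvd he ha0
  set wt : O → ℝ := fun f => P * N f / √A with hwt
  set V : O → ℝ := fun f => A / (P * (N f : ℝ) ^ 2) with hV
  have hw0 : ∀ f, 0 ≤ wt f := fun f => by simp only [hwt]; positivity
  set Z : O → ℂ := fun e => eta (quo a e) 0 * eta (quo b e) 0 with hZ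
  set Er : O → O → ℂ := fun e f => Full (quo a e) (quo b e) (V f) - Z e -
    BigS K (quo a e) (quo b e) (V f) - (√(V f) : ℝ) * mK (quo a e) (quo b e) with hEr
  set E0 : ℂ := Full a b P - eta a 0 * eta b 0 - BigS K a b P - (√P : ℝ) * mK a b with hE0
  have hf0 : ∀ e ∈ D, ∀ f ∈ pdiv e, (0 : ℝ) < N f ∧ (N f : ℝ) ≤ N e := fun e he f hf => by
    have he0 := (hmem e he).1.ne_zero
    obtain ⟨h3, h4⟩ := (mem_pdiv he0).1 hf
    exact ⟨N_pos_real h3.ne_zero, by exact_mod_cast N_le_of_dvd h4 he0⟩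
  have main : ∑ e ∈ D, ∑ f ∈ pdiv e,
      mu e * mu f * (wt f : ℂ) * ((√(V f) : ℝ) * mK (quo a e) (quo b e)) = (√P : ℝ) * mK a b := by
    have e1 : ∀ e ∈ D, ∑ f ∈ pdiv e,
        mu e * mu f * (wt f : ℂ) * ((√(V f) : ℝ) * mK (quo a e) (quo b e)) =
        if e = 1 then (√P : ℝ) * mK a b else 0 := fun e he => by
      rw [sum_congr rfl (g := fun f => mu f * (mu e * ((√P : ℝ) * mK (quo a e) (quo b e)))),
        ← sum_mul, sum_mu k (hmem e he).1]
      · split_ifs with h3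
        · rw [h3, k.mu_one, quo_one, quo_one, one_mul, one_mul]
        · rw [zero_mul]
      · intro f hf
        rw [← w_sqrt hP0 (hf0 e he f hf).1 hA0]
        push_cast
        simp only [hwt, hV]
        push_cast
        ring
    rw [sum_congr rfl e1, sum_ite_eq', if_pos]
    exact mem_filter.2 ⟨(mem_pdiv ha0).2 ⟨primary_one, one_dvd a⟩, one_dvd b⟩
  have key : BigS K a b P - Dual K P a b =
      (∑ e ∈ D, ∑ f ∈ pdiv e, mu e * mu f * (wt f : ℂ) * Z e) +
        (∑ e ∈ D, ∑ f ∈ pdiv e, mu e * mu f * (wt f : ℂ) * Er e f) - eta a 0 * eta b 0 - E0 := by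
    have e1 : Full a b P - Dual K P a b =
        (∑ e ∈ D, ∑ f ∈ pdiv e, mu e * mu f * (wt f : ℂ) * Z e) +
        (∑ e ∈ D, ∑ f ∈ pdiv e, mu e * mu f * (wt f : ℂ) * Er e f) + (√P : ℝ) * mK a b := by
      rw [← main, hq a b P ha hb hab hP0, Dual]
      simp only [← sum_add_distrib, ← sum_sub_distrib]
      refine sum_congr rfl fun e _ => sum_congr rfl fun f _ => ?_
      simp only [hEr, hwt, hV, hA]
      ring
    rw [hE0]
    linear_combination e1
  set S : ℝ := ∑ e ∈ D, √(N e) with hS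
  have hS0 : 0 ≤ S := sum_nonneg fun _ _ => Real.sqrt_nonneg _
  set x : ℝ := if a = b then P else 0 with hx
  have hx0 : 0 ≤ x := by
    rw [hx]
    split_ifs
    exacts [hP0.le, le_rfl]
  have bZ : ‖∑ e ∈ D, ∑ f ∈ pdiv e, mu e * mu f * (wt f : ℂ) * Z e‖ ≤ C2 * r * x := by
    have e1 : ∀ e ∈ D, ‖∑ f ∈ pdiv e, mu e * mu f * (wt f : ℂ) * Z e‖ ≤
        if e = a then C2 * r * x else 0 := fun e he => by
      obtain ⟨h3, h4, h5⟩ := hmem e he
      by_cases h6 : quo a e = 1 ∧ quo b e = 1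
      · have e2 : e = a := by simpa [h6.1] using mul_quo h4
        have e3 : e = b := by simpa [h6.2] using mul_quo h5
        rw [if_pos e2, hx, if_pos (e2.symm.trans e3)]
        refine (norm_sum_le _ _).trans ((sum_le_card_nsmul _ _ P fun f hf => ?_).trans ?_)
        · refine (norm_term k e f (hw0 f) _).trans ?_
          have e4 : Z e = 1 := by simp [hZ, h6.1, h6.2, eta_zero k primary_one]
          rw [e4, norm_one, mul_one]
          simp only [hwt, hA]
          rw [← e2, ← e3, Real.sqrt_mul_self (Nat.cast_nonneg _), mul_div_assoc]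
          exact mul_le_of_le_one_right hP0.le
            (div_le_one_of_le₀ (hf0 e he f hf).2 (Nat.cast_nonneg _))
        · rw [nsmul_eq_mul]
          exact mul_le_mul_of_nonneg_right (hdv e h4) hP0.le
      · have e4 : Z e = 0 := by
          simp only [hZ, eta_zero k (sqo_quo ha h3 h4).1.1, eta_zero k (sqo_quo hb h3 h5).1.1]
          split_ifs with h7 h8
          · exact (h6 ⟨h7, h8⟩).elim
          all_goals simp
        simp only [e4, mul_zero, sum_const_zero, norm_zero]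
        split_ifs
        · positivity
        · exact le_rfl
    refine (norm_sum_le _ _).trans ((sum_le_sum e1).trans ?_)
    rw [sum_ite_eq']
    split_ifs
    · exact le_rfl
    · positivity
  have b0 : ‖eta a 0 * eta b 0‖ ≤ x := by
    rw [eta_zero k ha.1.1, eta_zero k hb.1.1]
    split_ifs with h3 h4
    · rw [hx, if_pos (h3.trans h4.symm)]
      simpa using hP
    all_goals simpa using hx0
  have hK0 : 0 ≤ K := by linarith
  have bE0 : ‖E0‖ ≤ C1 * (r * r) * (K * P ^ (1 / 4 : ℝ)) := by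
    refine (hm a b P ha hb hP0).trans ?_
    have := hrr _ _ hNa.le hNb.le a2 b2
    calc C1 * K * ((N a : ℝ) * N b) ^ (ε / 3) * P ^ (1 / 4 : ℝ)
        ≤ C1 * K * (r * r) * P ^ (1 / 4 : ℝ) := by gcongr
      _ = _ := by ring
  have hA1 : R0 ^ 2 / 4 ≤ A := by
    rw [hA]
    nlinarith [mul_le_mul a1.le b1.le (by positivity) hNa.le]
  have bE : ‖∑ e ∈ D, ∑ f ∈ pdiv e, mu e * mu f * (wt f : ℂ) * Er e f‖ ≤
      2 * C1 * C2 * (r * r * r) * (K * P ^ (3 / 4 : ℝ) / √R0 * S) := by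
    rw [hS, mul_sum, mul_sum]
    refine (norm_sum_le _ _).trans (sum_le_sum fun e he => ?_)
    obtain ⟨h3, h4, h5⟩ := hmem e he
    refine (norm_sum_le _ _).trans ((sum_le_card_nsmul _ _
      (C1 * K * (r * r) * (2 * (P ^ (3 / 4 : ℝ) / √R0 * √(N e)))) fun f hf => ?_).trans ?_)
    · obtain ⟨h6, h7⟩ := hf0 e he f hf
      refine (norm_term k e f (hw0 f) _).trans ?_
      have h8 := hm (quo a e) (quo b e) (V f) (sqo_quo ha h3 h4) (sqo_quo hb h3 h5)
        (by simp only [hV]; positivity)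
      have h9 := hrr _ _ (Nat.cast_nonneg _) (Nat.cast_nonneg _) ((N_quo_le ha0 h4).trans a2)
        ((N_quo_le hb0 h5).trans b2)
      have h10 := w_quart hP0 h6 hR0 hA1
      have h11 : 0 ≤ V f ^ (1 / 4 : ℝ) := by simp only [hV]; positivity
      calc wt f * ‖Er e f‖ ≤ wt f * (C1 * K * (r * r) * V f ^ (1 / 4 : ℝ)) := by
            refine mul_le_mul_of_nonneg_left (h8.trans ?_) (hw0 f)
            gcongr
        _ = C1 * K * (r * r) * (wt f * V f ^ (1 / 4 : ℝ)) := by ring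
        _ ≤ C1 * K * (r * r) * (2 * (P ^ (3 / 4 : ℝ) / √R0 * √(N f))) :=
            mul_le_mul_of_nonneg_left h10 (by positivity)
        _ ≤ _ := by gcongr
    · rw [nsmul_eq_mul]
      refine (mul_le_mul_of_nonneg_right (hdv e h4) (by positivity)).trans (le_of_eq ?_)
      ring
  rw [key, hr3]
  set y : ℝ := K * P ^ (1 / 4 : ℝ) with hy
  set z : ℝ := K * P ^ (3 / 4 : ℝ) / √R0 * S with hz
  have hy0 : 0 ≤ y := by positivity
  have hz0 : 0 ≤ z := by positivity
  have r2 : 1 ≤ r * r := one_le_mul_of_one_le_of_one_le hr1 hr1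
  have r3 : 1 ≤ r * r * r := one_le_mul_of_one_le_of_one_le r2 hr1
  have r4 : r ≤ r * r * r := le_mul_of_one_le_left (by positivity) r2
  have r5 : r * r ≤ r * r * r := le_mul_of_one_le_right (by positivity) hr1
  set ρ := r * r * r with hρ
  have t1 : C2 * r * x ≤ C2 * ρ * (x + y + z) := by gcongr; linarith
  have t2 : x ≤ ρ * (x + y + z) := (by linarith : x ≤ x + y + z).trans
    (le_mul_of_one_le_left (by positivity) r3)
  have t3 : C1 * (r * r) * y ≤ C1 * ρ * (x + y + z) := by gcongr; linarith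
  have t4 : 2 * C1 * C2 * ρ * z ≤ 2 * C1 * C2 * ρ * (x + y + z) := by gcongr; linarith
  refine (norm_sub_le _ _).trans ((add_le_add ((norm_sub_le _ _).trans
    (add_le_add ((norm_add_le _ _).trans (add_le_add bZ bE)) b0)) bE0).trans ?_)
  linarith

end Pool.Agent.P.MP_26a8c3_nt.QL
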