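import Pool.Agent.P.MP_26a8c3_nt.QL.St

/-! Poisson summation for the full quadratic kernel. -/

namespace Pool.Agent.P.MP_26a8c3_nt.QL

open Finset Pool.Agent.P.MP_26a8c3_nt.QO
open scoped Classical ComplexConjugate

namespace PQ

lemma mul_quo {a e : O} (h : e ∣ a) : e * quo a e = a := by
  unfold quo; rw [dif_pos h]; exact h.choose_spec.symm

lemma mem_pdiv {c d : O} (h : d ∈ pdiv c) : Primary d ∧ d ∣ c := (Finset.mem_filter.1 h).2

lemma gam_one (A : Alg) {a b : O} (hb : Od b) (h : 4 ∣ a - b) : gam (a * b) = 1 := by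
  obtain ⟨g1, g2, -, g4, -⟩ := A.gam
  have e : a * b - 1 * b ^ 2 = (a - b) * b := by ring
  rw [g2 (a * b) (1 * b ^ 2) (by rw [e]; exact h.mul_right b), g4 1 b hb, g1]

lemma eta_sq (k : Ok) {a e f : O} (ha : SQO a) (he : e ∣ a) (hf : f ∣ e) :
    eta (quo a e) (f ^ 2) = 1 := by
  have h0 : quo a e ≠ 0 := by
    intro h
    have := mul_quo he
    rw [h, mul_zero] at this
    exact ha.1.1.ne_zero this.symm
  have hs : Squarefree (e * quo a e) := by rw [mul_quo he]; exact ha.1.2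
  have hc : IsCoprime e (quo a e) := isRelPrime_iff_isCoprime.1 (squarefree_mul_iff.1 hs).1
  rw [k.sq _ _ h0, cop, if_pos (hc.of_isCoprime_of_dvd_left hf)]

lemma summ (k : Ok) (a b : O) {V : ℝ} (hV : 0 < V) :
    Summable fun x : O => eta a x * eta b x * ((G (N x / V) : ℝ) : ℂ) := by
  refine Summable.of_norm_bounded (k.sumG V hV) fun x => ?_
  have hG : 0 ≤ G (N x / V) := (Real.exp_pos _).le
  rw [norm_mul, norm_mul, Complex.norm_real, Real.norm_of_nonneg hG]
  have h1 : ‖eta a x‖ * ‖eta b x‖ ≤ 1 := mul_le_one₀ (k.le a x) (norm_nonneg _) (k.le b x)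
  exact mul_le_of_le_one_left hG h1

lemma subst (k : Ok) {a b f : O} (hf : f ≠ 0) (h1 : eta a (f ^ 2) = 1) (h2 : eta b (f ^ 2) = 1)
    (V : ℝ) :
    ∑' m : O, (if f ^ 2 ∣ m then eta a m * eta b m * ((G (N m / V) : ℝ) : ℂ) else 0) =
      Full a b (V / (N f : ℝ) ^ 2) := by
  have hi : Function.Injective fun m : O => f ^ 2 * m := mul_right_injective₀ (pow_ne_zero 2 hf)
  rw [← hi.tsum_eq]
  · unfold Full
    refine tsum_congr fun m => ?_
    rw [if_pos (dvd_mul_right _ _), k.mul, k.mul, h1, h2, one_mul, one_mul, map_mul, map_pow]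
    congr 3
    push_cast
    rw [div_div_eq_mul_div, mul_comm]
  · intro m hm
    by_cases h : f ^ 2 ∣ m
    · obtain ⟨t, rfl⟩ := h
      exact ⟨t, rfl⟩
    · exact absurd (if_neg h) hm

lemma expand (k : Ok) (A : Alg) {a b : O} (ha : SQO a) (hb : SQO b) {V : ℝ} (hV : 0 < V) :
    ∑' m : O, KE a b m * ((G (N m / V) : ℝ) : ℂ) =
      ∑ e ∈ (pdiv a).filter (· ∣ b), ∑ f ∈ pdiv e,
        mu e * mu f * (N f : ℂ) * Full (quo a e) (quo b e) (V / (N f : ℝ) ^ 2) := by
  obtain ⟨-, -, -, -, -, -, k7, -⟩ := A.k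
  have hs : ∀ e f : O, Summable fun m : O => mu e * mu f * (N f : ℂ) *
      (if f ^ 2 ∣ m then eta (quo a e) m * eta (quo b e) m * ((G (N m / V) : ℝ) : ℂ) else 0) := by
    intro e f
    refine Summable.mul_left _ ?_
    exact ((summ k (quo a e) (quo b e) hV).indicator {m | f ^ 2 ∣ m}).congr fun m => by
      simp [Set.indicator_apply]
  have h1 : ∀ m : O, KE a b m * ((G (N m / V) : ℝ) : ℂ) =
      ∑ e ∈ (pdiv a).filter (· ∣ b), ∑ f ∈ pdiv e, mu e * mu f * (N f : ℂ) *
        (if f ^ 2 ∣ m then eta (quo a e) m * eta (quo b e) m * ((G (N m / V) : ℝ) : ℂ) else 0) := by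
    intro m
    rw [k7 a b m ha.1 hb.1, sum_mul]
    refine sum_congr rfl fun e _ => ?_
    rw [jj, mul_sum, sum_mul, sum_mul]
    refine sum_congr rfl fun f _ => ?_
    split_ifs <;> ring
  rw [tsum_congr h1, Summable.tsum_finsetSum fun e _ => summable_sum fun f _ => hs e f]
  refine sum_congr rfl fun e he => ?_
  rw [Summable.tsum_finsetSum fun f _ => hs e f]
  refine sum_congr rfl fun f hf => ?_
  obtain ⟨he1, he2⟩ := mem_filter.1 he
  rw [tsum_mul_left, subst k (mem_pdiv hf).1.ne_zero (eta_sq k ha (mem_pdiv he1).2 (mem_pdiv hf).2)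
    (eta_sq k hb he2 (mem_pdiv hf).2)]

end PQ

theorem pPQ (k : Ok) (A : Alg) : S_PQ := by
  intro a b P ha hb hab hP
  have pa := N_pos_real ha.1.1.ne_zero
  have pb := N_pos_real hb.1.1.ne_zero
  have hV : 0 < (N a : ℝ) * N b / P := by positivity
  have h := A.pe a b _ ha hb hV
  rw [PQ.expand k A ha hb hV, PQ.gam_one A hb.2 hab, mul_one] at h
  have e1 : ∀ x : O, (N a : ℝ) * N b / P * N x / (N a * N b) = N x / P := by
    intro x; field_simp
  simp only [e1] at h
  have hq : 0 < √((N a : ℝ) * N b) := Real.sqrt_pos.2 (by positivity)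
  have e2 : ab a * ab b = √((N a : ℝ) * N b) := by
    rw [ab, ab, norm_toC, norm_toC, Real.sqrt_mul pa.le]
  have e3 : P / √((N a : ℝ) * N b) * ((N a : ℝ) * N b / P / (ab a * ab b)) = 1 := by
    rw [e2]
    have := Real.mul_self_sqrt (show 0 ≤ (N a : ℝ) * N b by positivity)
    field_simp
    nlinarith
  have e4 : Full a b P = ((P / √((N a : ℝ) * N b) : ℝ) : ℂ) *
      ((((N a : ℝ) * N b / P / (ab a * ab b) : ℝ) : ℂ) * Full a b P) := by
    rw [← mul_assoc, ← Complex.ofReal_mul, e3]; simp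
  rw [e4, show Full a b P = ∑' h : O, eta a h * eta b h * ((G (N h / P) : ℝ) : ℂ) from rfl, ← h,
    mul_sum]
  refine sum_congr rfl fun e _ => ?_
  rw [mul_sum]
  refine sum_congr rfl fun f _ => ?_
  rw [div_div]
  push_cast
  ring

end Pool.Agent.P.MP_26a8c3_nt.QL
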