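import Pool.Agent.P.MP_26a8c3_nt.QL.St

/-! The Schur test for the error matrix of the quadratic large sieve. -/

namespace Pool.Agent.P.MP_26a8c3_nt.QL

open Finset Pool.Agent.P.MP_26a8c3_nt.QO
open scoped Classical ComplexConjugate

namespace Schur

lemma test (S : Finset O) (a : O → ℂ) (E : O → O → ℂ) (B : O → O → ℝ) (L : ℝ)
    (hE : ∀ m ∈ S, ∀ n ∈ S, ‖E m n‖ ≤ B m n) (hs : ∀ m ∈ S, ∀ n ∈ S, B m n = B n m)
    (hr : ∀ m ∈ S, ∑ n ∈ S, B m n ≤ L) :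
    ‖∑ m ∈ S, ∑ n ∈ S, a m * conj (a n) * E m n‖ ≤ L * nr S a := by
  have h1 : ‖∑ m ∈ S, ∑ n ∈ S, a m * conj (a n) * E m n‖ ≤
      ∑ m ∈ S, ∑ n ∈ S, (‖a m‖ ^ 2 / 2 * B m n + ‖a n‖ ^ 2 / 2 * B n m) := by
    refine (norm_sum_le _ _).trans (sum_le_sum fun m hm => ?_)
    refine (norm_sum_le _ _).trans (sum_le_sum fun n hn => ?_)
    rw [norm_mul, norm_mul, Complex.norm_conj, ← hs m hm n hn]
    have h0 : 0 ≤ B m n := (norm_nonneg _).trans (hE m hm n hn)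
    have h2 : ‖a m‖ * ‖a n‖ ≤ ‖a m‖ ^ 2 / 2 + ‖a n‖ ^ 2 / 2 := by
      nlinarith [sq_nonneg (‖a m‖ - ‖a n‖)]
    calc ‖a m‖ * ‖a n‖ * ‖E m n‖ ≤ ‖a m‖ * ‖a n‖ * B m n :=
          mul_le_mul_of_nonneg_left (hE m hm n hn) (by positivity)
      _ ≤ (‖a m‖ ^ 2 / 2 + ‖a n‖ ^ 2 / 2) * B m n := mul_le_mul_of_nonneg_right h2 h0
      _ = _ := by ring
  have h2 : ∑ m ∈ S, ∑ n ∈ S, ‖a m‖ ^ 2 / 2 * B m n ≤ L * nr S a / 2 := by
    rw [nr, mul_sum, sum_div]
    refine sum_le_sum fun m hm => ?_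
    rw [← mul_sum]
    have := mul_le_mul_of_nonneg_left (hr m hm) (show 0 ≤ ‖a m‖ ^ 2 / 2 by positivity)
    linarith
  have h3 : ∑ m ∈ S, ∑ n ∈ S, ‖a n‖ ^ 2 / 2 * B n m =
      ∑ m ∈ S, ∑ n ∈ S, ‖a m‖ ^ 2 / 2 * B m n := sum_comm
  simp only [sum_add_distrib] at h1
  linarith

lemma mem_pdiv {c d : O} (hc : c ≠ 0) : d ∈ pdiv c ↔ Primary d ∧ d ∣ c := by
  simp only [pdiv, ball, mem_filter, Set.Finite.mem_toFinset, Set.mem_ofPred_eq, and_iff_right_iff_imp]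
  intro h
  exact_mod_cast N_le_of_dvd h.2 hc

lemma symm {m n : O} (hm : m ≠ 0) (hn : n ≠ 0) :
    (pdiv m).filter (· ∣ n) = (pdiv n).filter (· ∣ m) := by
  ext e
  simp only [mem_filter, mem_pdiv hm, mem_pdiv hn]
  tauto

lemma mul_quo {a e : O} (h : e ∣ a) : e * quo a e = a := by
  rw [quo, dif_pos h]
  exact h.choose_spec.symm

lemma card_dvd {C R0 : ℝ} (hC : ∀ y : ℝ, 0 ≤ y → (((ball y).erase 0).card : ℝ) ≤ C * y)
    (hR : 0 ≤ R0) {S : Finset O} (hS : In S R0) {e : O} (he : e ≠ 0) :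
    ((S.filter (e ∣ ·)).card : ℝ) ≤ C * (R0 / N e) := by
  have hN := N_pos_real he
  refine le_trans ?_ (hC (R0 / N e) (by positivity))
  have : (S.filter (e ∣ ·)).card ≤ ((ball (R0 / N e)).erase 0).card := by
    refine card_le_card_of_injOn (fun n => quo n e) ?_ ?_
    · intro n hn
      obtain ⟨hn, hd⟩ := mem_filter.1 hn
      have hq := mul_quo hd
      have hn0 : n ≠ 0 := (hS n hn).1.1.1.ne_zero
      have hq0 : quo n e ≠ 0 := fun h => hn0 (by rw [← hq, h, mul_zero])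
      have hle : (N (quo n e) : ℝ) ≤ R0 / N e := by
        rw [le_div_iff₀ hN]
        have h1 : (N n : ℝ) = N e * N (quo n e) := by
          conv_lhs => rw [← hq]
          rw [map_mul]; push_cast; ring
        have := (hS n hn).2
        linarith
      simp only [coe_erase, Set.mem_sdiff, mem_coe, Set.mem_singleton_iff, ball,
        Set.Finite.mem_toFinset, Set.mem_ofPred_eq]
      exact ⟨hle, hq0⟩
    · intro n hn n' hn' h
      have h1 := mul_quo (mem_filter.1 hn).2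
      have h2 := mul_quo (mem_filter.1 hn').2
      simp only at h
      rw [← h1, ← h2, h]
  exact_mod_cast this

lemma row {C R0 : ℝ} (hC1 : 1 ≤ C) (hC : ∀ y : ℝ, 0 ≤ y → (((ball y).erase 0).card : ℝ) ≤ C * y)
    (hR : 0 ≤ R0) {S : Finset O} (hS : In S R0) {m : O} (hm : m ≠ 0) :
    ∑ n ∈ S, ∑ e ∈ (pdiv m).filter (· ∣ n), √(N e : ℝ) ≤ dv m * (C * R0) := by
  have h1 : ∑ n ∈ S, ∑ e ∈ (pdiv m).filter (· ∣ n), √(N e : ℝ) =
      ∑ e ∈ pdiv m, ((S.filter (e ∣ ·)).card : ℝ) * √(N e : ℝ) := by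
    simp only [sum_filter]
    rw [sum_comm]
    refine sum_congr rfl fun e _ => ?_
    rw [← sum_filter, sum_const, nsmul_eq_mul]
  rw [h1, dv, ← nsmul_eq_mul, ← sum_const]
  refine sum_le_sum fun e he => ?_
  have he0 : e ≠ 0 := ((mem_pdiv hm).1 he).1.ne_zero
  have hN := one_le_N he0
  have hs : √(N e : ℝ) ≤ N e := by
    rw [Real.sqrt_le_left (by linarith)]
    nlinarith
  calc ((S.filter (e ∣ ·)).card : ℝ) * √(N e : ℝ) ≤ C * (R0 / N e) * N e :=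
        mul_le_mul (card_dvd hC hR hS he0) hs (Real.sqrt_nonneg _) (by positivity)
    _ = C * R0 := by field_simp

end Schur

theorem pSchur (k : Ok) (ht : S_Triv) : S_Schur := by
  intro ε hε
  obtain ⟨C, hC1, hC, -⟩ := ht
  obtain ⟨D, hD, hd⟩ := k.dvb ε hε
  refine ⟨C * (1 + D), by positivity, fun R0 x y z S a E hR hx hy hz hS hE => ?_⟩
  have hR0 : 0 ≤ R0 := by linarith
  have h0 : ∀ n ∈ S, n ≠ 0 := fun n hn => (hS n hn).1.1.1.ne_zero
  refine Schur.test S a E _ _ hE (fun m hm n hn => ?_) (fun m hm => ?_)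
  · rw [Schur.symm (h0 m hm) (h0 n hn)]
    simp only [eq_comm (a := m)]
  · have hc : (S.card : ℝ) ≤ C * R0 := by
      have := Schur.card_dvd hC hR0 hS (e := 1) one_ne_zero
      simpa using this
    have hp : 1 ≤ R0 ^ ε := Real.one_le_rpow hR hε.le
    have hdm : dv m ≤ D * R0 ^ ε := by
      refine (hd m (h0 m hm)).trans (mul_le_mul_of_nonneg_left ?_ hD.le)
      exact Real.rpow_le_rpow (by positivity) (hS m hm).2 hε.le
    have hrow := Schur.row hC1 hC hR0 hS (h0 m hm)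
    rw [sum_add_distrib, sum_add_distrib, sum_ite_eq, if_pos hm, sum_const, nsmul_eq_mul, ← mul_sum]
    have hq : 1 ≤ (1 + D) * R0 ^ ε := by nlinarith
    have hq1 : 1 ≤ C * (1 + D) * R0 ^ ε := by nlinarith
    have e1 : x ≤ C * (1 + D) * R0 ^ ε * x := by nlinarith
    have e2 : (S.card : ℝ) * y ≤ C * (1 + D) * R0 ^ ε * (y * R0) := by
      have h1 : (S.card : ℝ) * y ≤ C * R0 * y := mul_le_mul_of_nonneg_right hc hy
      have h2 : 0 ≤ C * R0 * y := by positivity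
      nlinarith
    have e3 : z * ∑ n ∈ S, ∑ e ∈ (pdiv m).filter (· ∣ n), √(N e : ℝ) ≤
        C * (1 + D) * R0 ^ ε * (z * R0) := by
      have h1 : dv m * (C * R0) ≤ (1 + D) * R0 ^ ε * (C * R0) :=
        mul_le_mul_of_nonneg_right (by nlinarith) (by positivity)
      have h2 := mul_le_mul_of_nonneg_left (hrow.trans h1) hz
      linarith
    linarith

end Pool.Agent.P.MP_26a8c3_nt.QL
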