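import Pool.Agent.P.MP_26a8c3_nt.QL.Fib

/-! From squarefree arguments to all arguments with a large squarefree part. -/

namespace Pool.Agent.P.MP_26a8c3_nt.QL

open Finset Pool.Agent.P.MP_26a8c3_nt.QO
open scoped Classical ComplexConjugate

namespace Star

lemma peel {p w : O} (hp : Prime p) (hw : Squarefree w) :
    ∃ v s : O, (v = 1 ∨ v = p) ∧ ¬p ∣ s ∧ w = v * s := by
  by_cases h : p ∣ w
  · obtain ⟨s, rfl⟩ := h
    exact ⟨p, s, Or.inr rfl, fun e => hp.not_isUnit (hw p (mul_dvd_mul_left p e)), rfl⟩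
  · exact ⟨1, w, Or.inl rfl, h, by ring⟩

lemma dec {w : O} (hw : Squarefree w) :
    ∃ v s : O, (N v : ℝ) ≤ 12 ∧ SQO s ∧ w = v * s := by
  obtain ⟨v1, s1, h1, n1, e1⟩ := peel prime_lam hw
  have hs1 : Squarefree s1 := hw.squarefree_of_dvd ⟨v1, by rw [e1]; ring⟩
  obtain ⟨v2, s2, h2, n2, e2⟩ := peel prime_two hs1
  have n3 : ¬lam ∣ s2 := fun e => n1 (e.trans ⟨v2, by rw [e2]; ring⟩)
  obtain ⟨u, hu, hp⟩ := exists_primary n3
  have h6 := unit_pow_six hu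
  have e : w = v1 * v2 * u ^ 5 * (u * s2) := by
    rw [e1, e2]; linear_combination (-(v1 * v2 * s2)) * h6
  refine ⟨v1 * v2 * u ^ 5, u * s2, ?_, ⟨⟨hp, hw.squarefree_of_dvd ⟨_, by rw [e, mul_comm]⟩⟩, ?_⟩, e⟩
  · have a : N v1 ≤ 3 := by rcases h1 with rfl | rfl <;> simp
    have b : N v2 ≤ 4 := by rcases h2 with rfl | rfl <;> simp
    have c : N u = 1 := isUnit_iff_N.1 hu
    have : N (v1 * v2 * u ^ 5) ≤ 12 := by
      rw [map_mul, map_mul, map_pow, c, one_pow, mul_one]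
      exact Nat.mul_le_mul a b
    exact_mod_cast this
  · refine (prime_two.irreducible.coprime_iff_not_dvd.2 fun h => n2 ?_).symm
    exact (hu.dvd_mul_left).1 h

lemma trip {K V : ℝ} (hK : 1 ≤ K) {x : O} (hx : Big K x) (hV : (N x : ℝ) ≤ V) :
    ∃ v t s : O, v ∈ ball 12 ∧ t ∈ (ball √(V / K)).erase 0 ∧
      s ∈ (ball (V / (N t : ℝ) ^ 2)).filter SQO ∧ s * (v * t ^ 2) = x := by
  obtain ⟨w, t, hw, e⟩ := Fib.ex_sq x hx.1
  have hb := hx.2 w t hw e
  obtain ⟨v, s, hv, hs, e'⟩ := dec hw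
  have ht : t ≠ 0 := by rintro rfl; exact hx.1 (by simpa using e)
  have hv0 : v ≠ 0 := by rintro rfl; exact hw.ne_zero (by simpa using e')
  have h1 := one_le_N ht
  have h2 := one_le_N hv0
  have hn : (N x : ℝ) = N w * (N t : ℝ) ^ 2 := by rw [e, map_mul, map_pow]; push_cast; ring
  have hn' : (N w : ℝ) = N v * N s := by rw [e', map_mul]; push_cast; ring
  have h3 : (0 : ℝ) ≤ N s := Nat.cast_nonneg _
  have h4 : (0 : ℝ) < (N t : ℝ) ^ 2 := by positivity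
  refine ⟨v, t, s, by simpa [ball] using hv, ?_, ?_, by rw [e, e']; ring⟩
  · simp only [mem_erase, ball, Set.Finite.mem_toFinset, Set.mem_ofPred_eq]
    refine ⟨ht, Real.le_sqrt_of_sq_le ?_⟩
    rw [le_div_iff₀ (by linarith)]
    nlinarith
  · simp only [mem_filter, ball, Set.Finite.mem_toFinset, Set.mem_ofPred_eq]
    refine ⟨?_, hs⟩
    rw [le_div_iff₀ h4]
    have : (N s : ℝ) ≤ N w := by nlinarith
    nlinarith

lemma twist (k : Ok) (S : Finset O) (a : O → ℂ) (s c : O) :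
    U S a (s * c) = U S (fun n => a n * eta n c) s := by
  unfold U
  exact sum_congr rfl fun n _ => by rw [k.mul]; ring

lemma nr_twist (k : Ok) (S : Finset O) (a : O → ℂ) (c : O) :
    nr S (fun n => a n * eta n c) ≤ nr S a := by
  unfold nr
  refine sum_le_sum fun n _ => ?_
  rw [norm_mul]
  have h := k.le n c
  have h0 := norm_nonneg (a n)
  have h1 := norm_nonneg (eta n c)
  exact pow_le_pow_left₀ (by positivity) (by nlinarith) 2

lemma nr_nonneg (S : Finset O) (a : O → ℂ) : 0 ≤ nr S a :=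
  sum_nonneg fun _ _ => by positivity

/-- one pair `(v, t)` -/
lemma one (k : Ok) {R β V : ℝ} {M : ℝ → ℝ} (hR : 1 ≤ R) (hβ : 0 ≤ β) (hM : Sc M) (h : Hy R β M)
    (hV : 0 < V) {S : Finset O} (hS : In S R) (a : O → ℂ) (v : O) {t : O} (ht : t ≠ 0) :
    ∑ s ∈ (ball (V / (N t : ℝ) ^ 2)).filter SQO, ‖U S a (s * (v * t ^ 2))‖ ^ 2 ≤
      β * (1 + V / R ^ 2) * nr S a * (R + M V * (1 / (N t : ℝ) ^ 2)) := by
  have h1 := one_le_N ht
  have h2 : (1 : ℝ) ≤ (N t : ℝ) ^ 2 := one_le_pow₀ h1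
  have hV' : 0 < V / (N t : ℝ) ^ 2 := by positivity
  have hb := h _ hV' ((ball (V / (N t : ℝ) ^ 2)).filter SQO) S (fun n => a n * eta n (v * t ^ 2))
    (fun n hn => by
      simp only [mem_filter, ball, Set.Finite.mem_toFinset, Set.mem_ofPred_eq] at hn
      exact ⟨hn.2, hn.1⟩) hS
  simp only [twist k]
  refine hb.trans ?_
  have m0 := hM.1 _ hV'
  have m1 := hM.2.1 V _ hV h2
  have d1 : V / (N t : ℝ) ^ 2 / R ^ 2 ≤ V / R ^ 2 :=
    div_le_div_of_nonneg_right (div_le_self hV.le h2) (by positivity)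
  have n0 := nr_nonneg S fun n => a n * eta n (v * t ^ 2)
  have n1 := nr_twist k S a (v * t ^ 2)
  rw [mul_one_div, mul_right_comm]
  have p0 : 0 ≤ V / (N t : ℝ) ^ 2 / R ^ 2 := by positivity
  have n2 := nr_nonneg S a
  gcongr

end Star

open _root_.Pool.Agent.P.MP_26a8c3_nt.QL.Star

theorem pStar (k : Ok) (ht : S_Triv) : S_Star := by
  obtain ⟨C1, hC1, hc, -⟩ := ht
  obtain ⟨C2, hz⟩ := k.zeta
  have hC2 : 0 ≤ C2 := by simpa using hz ∅
  set D : ℝ := ((ball 12).card : ℝ) with hD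
  have hD0 : 0 ≤ D := Nat.cast_nonneg _
  refine ⟨1 + D * (C1 + C2), by nlinarith [mul_nonneg hD0 (by linarith : 0 ≤ C1 + C2)], ?_⟩
  intro K R β M hK hR hβ hM h V T S a hV hT hS
  set Tt := (ball √(V / K)).erase 0 with hTt
  set Z : Finset (Σ _ : O × O, O) :=
    (ball 12 ×ˢ Tt).sigma fun p => (ball (V / (N p.2 : ℝ) ^ 2)).filter SQO with hZ
  set g : (Σ _ : O × O, O) → O := fun q => q.2 * (q.1.1 * q.1.2 ^ 2) with hg
  have sub : T ⊆ Z.image g := by
    intro x hx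
    obtain ⟨v, t, s, h1, h2, h3, e⟩ := trip hK (hT x hx).1 (hT x hx).2
    exact mem_image.2 ⟨⟨(v, t), s⟩, mem_sigma.2 ⟨mem_product.2 ⟨h1, h2⟩, h3⟩, e⟩
  have n0 := nr_nonneg S a
  have m0 := hM.1 V hV
  have s0 := Real.sqrt_nonneg (V / K)
  set A : ℝ := β * (1 + V / R ^ 2) * nr S a with hA
  have A0 : 0 ≤ A := by positivity
  have hin : ∑ t ∈ Tt, A * (R + M V * (1 / (N t : ℝ) ^ 2)) ≤
      A * ((C1 + C2) * (√(V / K) * R + M V)) := by
    rw [← mul_sum, sum_add_distrib, ← mul_sum, sum_const, nsmul_eq_mul]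
    refine mul_le_mul_of_nonneg_left ?_ A0
    have c1 := hc _ s0
    have c2 := hz Tt
    have c3 : (Tt.card : ℝ) * R ≤ C1 * √(V / K) * R := by gcongr
    have c4 : M V * ∑ t ∈ Tt, 1 / (N t : ℝ) ^ 2 ≤ M V * C2 := by gcongr
    have c5 : 0 ≤ C2 * (√(V / K) * R) := by positivity
    have c6 : 0 ≤ C1 * M V := by positivity
    nlinarith
  calc ∑ x ∈ T, ‖U S a x‖ ^ 2 ≤ ∑ x ∈ Z.image g, ‖U S a x‖ ^ 2 :=
        sum_le_sum_of_subset_of_nonneg sub fun _ _ _ => by positivity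
    _ ≤ ∑ q ∈ Z, ‖U S a (g q)‖ ^ 2 := sum_image_le_of_nonneg fun _ _ => by positivity
    _ = ∑ v ∈ ball 12, ∑ t ∈ Tt,
          ∑ s ∈ (ball (V / (N t : ℝ) ^ 2)).filter SQO, ‖U S a (s * (v * t ^ 2))‖ ^ 2 := by
        rw [hZ, sum_sigma, sum_product]
    _ ≤ ∑ _v ∈ ball 12, A * ((C1 + C2) * (√(V / K) * R + M V)) := by
        refine sum_le_sum fun v _ => le_trans (sum_le_sum fun t ht' => ?_) hin
        exact one k hR hβ hM h hV hS a v (mem_erase.1 ht').1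
    _ = D * (A * ((C1 + C2) * (√(V / K) * R + M V))) := by rw [sum_const, nsmul_eq_mul]
    _ ≤ (1 + D * (C1 + C2)) * (A * (√(V / K) * R + M V)) := by
        have : 0 ≤ A * (√(V / K) * R + M V) := by positivity
        nlinarith
    _ = _ := by rw [hA]; ring

end Pool.Agent.P.MP_26a8c3_nt.QL
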