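import Pool.Agent.P.MP_26a8c3_nt.QL.St

/-! Gaussian sums over squares prime to a modulus, and the splitting of the kernel. -/

namespace Pool.Agent.P.MP_26a8c3_nt.QL

open Finset Pool.Agent.P.MP_26a8c3_nt.QO
open scoped Classical ComplexConjugate

namespace Th

/-- the term of the sum over squares -/
noncomputable def th (V : ℝ) (t : O) : ℝ := if t = 0 then 0 else G ((N t : ℝ) ^ 2 / V)

lemma G_pos (y : ℝ) : 0 < G y := Real.exp_pos _

lemma th_sum (h : S_Th0) {V : ℝ} (hV : 0 < V) : Summable (th V) := by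
  obtain ⟨c, C, h⟩ := h
  refine Summable.of_nonneg_of_le (fun t => ?_) (fun t => ?_) (h V hV).1
  · unfold th; split_ifs
    · exact le_rfl
    · exact (G_pos _).le
  · unfold th; split_ifs
    · exact (G_pos _).le
    · exact le_rfl

lemma th_mul {d : O} (hd : d ≠ 0) (V : ℝ) (t : O) :
    th V (d * t) = th (V / (N d : ℝ) ^ 2) t := by
  have h1 := N_pos_real hd
  unfold th
  by_cases ht : t = 0
  · simp [ht]
  · rw [if_neg ht, if_neg (mul_ne_zero hd ht)]
    congr 1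
    rw [map_mul]
    push_cast
    rw [div_div_eq_mul_div]
    ring

lemma tsum_dvd {d : O} (hd : d ≠ 0) (V : ℝ) :
    (∑' t : O, if d ∣ t then ((th V t : ℝ) : ℂ) else 0) =
      ((∑' t : O, th (V / (N d : ℝ) ^ 2) t : ℝ) : ℂ) := by
  have hi : Function.Injective fun t : O => d * t := mul_right_injective₀ hd
  rw [← hi.tsum_eq, Complex.ofReal_tsum]
  · refine tsum_congr fun t => ?_
    rw [if_pos (dvd_mul_right d t), th_mul hd]
  · intro t ht
    by_cases hdt : d ∣ t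
    · obtain ⟨s, rfl⟩ := hdt
      exact ⟨s, rfl⟩
    · exact absurd (if_neg hdt) ht

lemma rp_le {V x : ℝ} (hV : 0 < V) (hx : 1 ≤ x) :
    (V / x) ^ (1 / 4 : ℝ) ≤ V ^ (1 / 4 : ℝ) :=
  Real.rpow_le_rpow (by positivity) (div_le_self hV.le hx) (by norm_num)

lemma cop_mul (a b t : O) : cop (a * b) t = cop a t * cop b t := by
  unfold cop
  rw [IsCoprime.mul_right_iff]
  by_cases h1 : IsCoprime t a <;> by_cases h2 : IsCoprime t b <;> simp [h1, h2]

end Th

open Th

theorem pTh (k : Ok) (h : S_Th0) : S_Th := by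
  have hs : ∀ {V : ℝ}, 0 < V → Summable (th V) := fun hV => th_sum h hV
  obtain ⟨c0, C0, h⟩ := h
  refine ⟨fun n => ∑ d ∈ pdiv n, mu d * ((c0 / N d : ℝ) : ℂ), fun ε hε => ?_⟩
  obtain ⟨Cd, hCd, hd⟩ := k.dvb ε hε
  refine ⟨(|C0| + 1) * Cd, by positivity, fun n V hn hV => ?_⟩
  have hne : ∀ d ∈ pdiv n, d ≠ 0 := fun d hdn => (mem_filter.1 hdn).2.1.ne_zero
  have e1 : ∀ t : O, (if t = 0 then (0 : ℂ) else cop n t * (G ((N t : ℝ) ^ 2 / V) : ℝ)) =
      ∑ d ∈ pdiv n, mu d * if d ∣ t then ((th V t : ℝ) : ℂ) else 0 := by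
    intro t
    have : ∑ d ∈ pdiv n, mu d * (if d ∣ t then ((th V t : ℝ) : ℂ) else 0) =
        cop n t * ((th V t : ℝ) : ℂ) := by
      rw [← k.mu_sum n t hn, sum_filter, sum_mul]
      refine sum_congr rfl fun d _ => ?_
      split_ifs <;> simp
    rw [this]
    unfold th
    split_ifs <;> simp
  have hsum : ∀ d ∈ pdiv n,
      Summable fun t : O => mu d * if d ∣ t then ((th V t : ℝ) : ℂ) else 0 := by
    intro d _
    refine Summable.mul_left _ ?_
    refine Summable.of_norm_bounded (g := fun t => ‖((th V t : ℝ) : ℂ)‖) ?_ fun t => ?_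
    · exact (Complex.summable_ofReal.2 (hs hV)).norm
    · split_ifs <;> simp
  rw [tsum_congr e1, Summable.tsum_finsetSum hsum, mul_sum, ← sum_sub_distrib]
  have hb : ∀ d ∈ pdiv n,
      ‖(∑' t : O, mu d * if d ∣ t then ((th V t : ℝ) : ℂ) else 0) -
        (√V : ℝ) * (mu d * ((c0 / N d : ℝ) : ℂ))‖ ≤ (|C0| + 1) * V ^ (1 / 4 : ℝ) := by
    intro d hdn
    have hd0 := hne d hdn
    have h1 := one_le_N hd0
    have h2 : (0 : ℝ) < N d := by linarith
    have hV' : 0 < V / (N d : ℝ) ^ 2 := by positivity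
    have h3 := (h _ hV').2
    have h4 : √(V / (N d : ℝ) ^ 2) = √V / N d := by
      rw [Real.sqrt_div hV.le, Real.sqrt_sq h2.le]
    rw [tsum_mul_left, tsum_dvd hd0]
    have e2 : mu d * ((∑' t : O, th (V / (N d : ℝ) ^ 2) t : ℝ) : ℂ) -
        (√V : ℝ) * (mu d * ((c0 / N d : ℝ) : ℂ)) =
        mu d * (((∑' t : O, th (V / (N d : ℝ) ^ 2) t) - c0 * √(V / (N d : ℝ) ^ 2) : ℝ) : ℂ) := by
      rw [h4]; push_cast; ring
    rw [e2, norm_mul, Complex.norm_real, Real.norm_eq_abs]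
    have h5 : (V / (N d : ℝ) ^ 2) ^ (1 / 4 : ℝ) ≤ V ^ (1 / 4 : ℝ) :=
      rp_le hV (one_le_pow₀ h1)
    have h6 : 0 ≤ (V / (N d : ℝ) ^ 2) ^ (1 / 4 : ℝ) := by positivity
    have h7 : |(∑' t : O, th (V / (N d : ℝ) ^ 2) t) - c0 * √(V / (N d : ℝ) ^ 2)| ≤
        (|C0| + 1) * V ^ (1 / 4 : ℝ) := by
      refine le_trans h3 ?_
      refine le_trans (mul_le_mul_of_nonneg_right (le_abs_self C0) h6) ?_
      exact mul_le_mul (by linarith) h5 h6 (by positivity)
    calc _ ≤ 1 * ((|C0| + 1) * V ^ (1 / 4 : ℝ)) :=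
          mul_le_mul (k.mu_le d) h7 (abs_nonneg _) zero_le_one
      _ = _ := one_mul _
  refine le_trans (norm_sum_le _ _) (le_trans (sum_le_card_nsmul _ _ _ hb) ?_)
  rw [nsmul_eq_mul]
  have h8 : ((pdiv n).card : ℝ) ≤ Cd * (N n : ℝ) ^ ε := hd n hn.ne_zero
  calc _ ≤ (Cd * (N n : ℝ) ^ ε) * ((|C0| + 1) * V ^ (1 / 4 : ℝ)) :=
        mul_le_mul_of_nonneg_right h8 (by positivity)
    _ = _ := by ring

theorem pSplit (k : Ok) (ht : S_Triv) (_h0 : S_Th0) (h : S_Th) (hf : S_Fib) : S_Split := by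
  obtain ⟨c, h⟩ := h
  obtain ⟨Ct, hCt, ht, -⟩ := ht
  intro ε hε
  obtain ⟨C1, hC1, h⟩ := h ε hε
  refine ⟨Ct * C1, by positivity, fun K hK => ?_⟩
  refine ⟨fun a b => (1 / 6) * ∑ v ∈ (ball K).filter Squarefree,
    eta a v * eta b v * (((1 / √(N v) : ℝ) : ℂ) * c (a * b)), fun a b V ha hb hV => ?_⟩
  have ha0 : a ≠ 0 := ha.1.1.ne_zero
  have hb0 : b ≠ 0 := hb.1.1.ne_zero
  have hab : Primary (a * b) := ha.1.1.mul hb.1.1
  have hee : ∀ x, ‖eta a x * eta b x‖ ≤ 1 := fun x => by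
    rw [norm_mul]
    exact mul_le_one₀ (k.le a x) (norm_nonneg _) (k.le b x)
  have hs : Summable fun x : O => ‖eta a x * eta b x * ((G (N x / V) : ℝ) : ℂ)‖ := by
    refine Summable.of_nonneg_of_le (fun _ => norm_nonneg _) (fun x => ?_) (k.sumG V hV)
    rw [norm_mul, Complex.norm_real, Real.norm_eq_abs, abs_of_pos (G_pos _)]
    exact mul_le_of_le_one_left (G_pos _).le (hee x)
  have h1 := hf K (fun x => eta a x * eta b x * ((G (N x / V) : ℝ) : ℂ)) hs
  have hG : G (N (0 : O) / V) = 1 := by simp [G]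
  rw [hG] at h1
  have e1 : Full a b V - eta a 0 * eta b 0 - BigS K a b V -
      (√V : ℝ) * ((1 / 6) * ∑ v ∈ (ball K).filter Squarefree,
        eta a v * eta b v * (((1 / √(N v) : ℝ) : ℂ) * c (a * b))) =
      (1 / 6) * ∑ v ∈ (ball K).filter Squarefree, eta a v * eta b v *
        ((∑' t : O, if t = 0 then 0 else
          cop (a * b) t * (G ((N t : ℝ) ^ 2 / (V / N v)) : ℝ)) - (√(V / N v) : ℝ) * c (a * b)) := by
    have e2 : ∀ v ∈ (ball K).filter Squarefree, eta a v * eta b v *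
        ((∑' t : O, if t = 0 then 0 else
          cop (a * b) t * (G ((N t : ℝ) ^ 2 / (V / N v)) : ℝ)) - (√(V / N v) : ℝ) * c (a * b)) =
        (∑' t : O, if t = 0 then 0 else
          eta a (v * t ^ 2) * eta b (v * t ^ 2) * ((G (N (v * t ^ 2) / V) : ℝ) : ℂ)) -
        (√V : ℝ) * (eta a v * eta b v * (((1 / √(N v) : ℝ) : ℂ) * c (a * b))) := by
      intro v _
      rw [mul_sub, ← tsum_mul_left, Real.sqrt_div hV.le]
      congr 1
      · refine tsum_congr fun t => ?_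
        split_ifs
        · simp
        · have e3 : (N t : ℝ) ^ 2 / (V / N v) = N (v * t ^ 2) / V := by
            rw [map_mul, map_pow, div_div_eq_mul_div]
            push_cast
            ring
          rw [e3, k.mul, k.mul, k.sq a t ha0, k.sq b t hb0, cop_mul]
          ring
      · push_cast
        ring
    rw [sum_congr rfl e2, sum_sub_distrib, ← mul_sum]
    unfold Full BigS
    rw [h1]
    push_cast
    ring
  rw [e1, norm_mul]
  have hb1 : ∀ v ∈ (ball K).filter Squarefree, ‖eta a v * eta b v *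
        ((∑' t : O, if t = 0 then 0 else
          cop (a * b) t * (G ((N t : ℝ) ^ 2 / (V / N v)) : ℝ)) - (√(V / N v) : ℝ) * c (a * b))‖ ≤
        C1 * ((N a : ℝ) * N b) ^ ε * V ^ (1 / 4 : ℝ) := by
    intro v hv
    have hv0 : v ≠ 0 := (mem_filter.1 hv).2.ne_zero
    have h2 := one_le_N hv0
    have h3 := h (a * b) (V / N v) hab (by positivity)
    rw [map_mul, Nat.cast_mul] at h3
    rw [norm_mul]
    refine le_trans (mul_le_of_le_one_left (norm_nonneg _) (hee v)) (le_trans h3 ?_)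
    exact mul_le_mul_of_nonneg_left (rp_le hV h2) (by positivity)
  have hc : (((ball K).filter Squarefree).card : ℝ) ≤ Ct * K := by
    refine le_trans ?_ (ht K (by linarith))
    refine Nat.cast_le.2 (card_le_card fun v hv => ?_)
    exact mem_erase.2 ⟨(mem_filter.1 hv).2.ne_zero, (mem_filter.1 hv).1⟩
  have h4 := le_trans (norm_sum_le _ _) (sum_le_card_nsmul _ _ _ hb1)
  rw [nsmul_eq_mul] at h4
  have h5 : ‖(1 / 6 : ℂ)‖ ≤ 1 := by
    rw [norm_div, norm_one]
    norm_num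
  have h6 : 0 ≤ C1 * ((N a : ℝ) * N b) ^ ε * V ^ (1 / 4 : ℝ) := by positivity
  refine le_trans (mul_le_of_le_one_left (norm_nonneg _) h5) (le_trans h4 ?_)
  calc _ ≤ (Ct * K) * (C1 * ((N a : ℝ) * N b) ^ ε * V ^ (1 / 4 : ℝ)) :=
        mul_le_mul_of_nonneg_right hc h6
    _ = _ := by ring

end Pool.Agent.P.MP_26a8c3_nt.QL
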