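import Pool.Agent.P.MP_26a8c3_nt.QL.St

/-! The Gaussian summed over squares: layer cake formula and the lattice point count. -/

namespace Pool.Agent.P.MP_26a8c3_nt.QL

open Finset Pool.Agent.P.MP_26a8c3_nt.QO
open scoped Classical ComplexConjugate

namespace Th0

open MeasureTheory Set

lemma a0_pos : 0 < a0 := div_pos (by positivity) sqrt3_pos

/-- the number of nonzero elements of norm at most `y` -/
noncomputable def cn (y : ℝ) : ℝ := (((ball y).erase 0).card : ℝ)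

lemma cn_mono : Monotone cn := by
  intro x y h
  unfold cn
  refine Nat.cast_le.2 (Finset.card_le_card (Finset.erase_subset_erase _ fun t ht => ?_))
  simp only [ball, Set.Finite.mem_toFinset, Set.mem_ofPred_eq] at ht ⊢
  exact ht.trans h

/-- one layer -/
noncomputable def F (V : ℝ) (t : O) (u : ℝ) : ℝ :=
  if t ∈ (ball (√(u * V / a0))).erase 0 then Real.exp (-u) else 0

lemma F_zero (V : ℝ) : F V 0 = fun _ => 0 := by
  funext u; simp [F]

lemma F_ne {V : ℝ} (hV : 0 < V) {t : O} (ht : t ≠ 0) :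
    F V t = (Ici (a0 * ((N t : ℝ) ^ 2 / V))).indicator fun u => Real.exp (-u) := by
  funext u
  have h : t ∈ (ball (√(u * V / a0))).erase 0 ↔ u ∈ Ici (a0 * ((N t : ℝ) ^ 2 / V)) := by
    simp only [Finset.mem_erase, ball, Set.Finite.mem_toFinset, Set.mem_ofPred_eq, Set.mem_Ici]
    rw [Real.le_sqrt' (N_pos_real ht), le_div_iff₀ a0_pos, ← mul_div_assoc, div_le_iff₀ hV,
      mul_comm a0]
    exact and_iff_right ht
  unfold F
  by_cases hu : u ∈ Ici (a0 * ((N t : ℝ) ^ 2 / V))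
  · rw [if_pos (h.2 hu), indicator_of_mem hu]
  · rw [if_neg (mt h.1 hu), indicator_of_notMem hu]

lemma F_nonneg (V : ℝ) (t : O) (u : ℝ) : 0 ≤ F V t u := by
  unfold F; split_ifs <;> positivity

lemma F_int {V : ℝ} (hV : 0 < V) (t : O) : Integrable (F V t) (volume.restrict (Ioi 0)) := by
  by_cases ht : t = 0
  · rw [ht, F_zero]; exact integrable_zero _ _ _
  · rw [F_ne hV ht]
    exact Integrable.indicator (integrableOn_exp_neg_Ioi 0) measurableSet_Ici

lemma F_val {V : ℝ} (hV : 0 < V) (t : O) :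
    ∫ u in Ioi 0, F V t u = if t = 0 then 0 else G ((N t : ℝ) ^ 2 / V) := by
  by_cases ht : t = 0
  · rw [if_pos ht, ht, F_zero]; simp
  · have hy : 0 < a0 * ((N t : ℝ) ^ 2 / V) :=
      mul_pos a0_pos (div_pos (pow_pos (N_pos_real ht) 2) hV)
    have hs : Ioi (0 : ℝ) ∩ Ici (a0 * ((N t : ℝ) ^ 2 / V)) = Ici (a0 * ((N t : ℝ) ^ 2 / V)) :=
      inter_eq_right.2 fun u hu => lt_of_lt_of_le hy hu
    rw [if_neg ht, F_ne hV ht, setIntegral_indicator measurableSet_Ici, hs,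
      integral_Ici_eq_integral_Ioi, integral_exp_neg_Ioi, G]

lemma F_sum (V u : ℝ) : ∑' t, F V t u = Real.exp (-u) * cn (√(u * V / a0)) := by
  have h1 : ∀ t ∉ (ball (√(u * V / a0))).erase 0, F V t u = 0 := fun t ht => if_neg ht
  have h2 : ∀ t ∈ (ball (√(u * V / a0))).erase 0, F V t u = Real.exp (-u) := fun t ht => if_pos ht
  rw [tsum_eq_sum h1, Finset.sum_congr rfl h2, Finset.sum_const, nsmul_eq_mul, cn, mul_comm]

lemma summ (k : Ok) {V : ℝ} (hV : 0 < V) : Summable fun t : O => G ((N t : ℝ) ^ 2 / V) := by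
  refine Summable.of_nonneg_of_le (fun t => (Real.exp_pos _).le) (fun t => ?_) (k.sumG V hV)
  have h : (N t : ℝ) ≤ (N t : ℝ) ^ 2 := by exact_mod_cast Nat.le_self_pow two_ne_zero (N t)
  exact Real.exp_le_exp.2 (neg_le_neg
    (mul_le_mul_of_nonneg_left (div_le_div_of_nonneg_right h hV.le) a0_pos.le))

lemma layer (k : Ok) {V : ℝ} (hV : 0 < V) :
    (∑' t : O, if t = 0 then 0 else G ((N t : ℝ) ^ 2 / V)) =
      ∫ u in Ioi 0, Real.exp (-u) * cn (√(u * V / a0)) := by
  have hs : Summable fun t : O => ∫ u in Ioi 0, ‖F V t u‖ := by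
    refine Summable.of_nonneg_of_le (fun t => integral_nonneg fun u => norm_nonneg _)
      (fun t => ?_) (summ k hV)
    simp only [Real.norm_of_nonneg (F_nonneg V t _)]
    rw [F_val hV]
    split_ifs
    · exact (Real.exp_pos _).le
    · exact le_rfl
  have h := integral_tsum_of_summable_integral_norm (F_int hV) hs
  simp only [F_val hV, F_sum] at h
  exact h

end Th0

open MeasureTheory Set Th0 in
theorem pTh0 (k : Ok) : S_Th0 := by
  obtain ⟨C, hC⟩ := k.cnt
  have i2 : IntegrableOn (fun u : ℝ => Real.exp (-u) * u ^ (1 / 2 : ℝ)) (Ioi 0) := by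
    have := Real.GammaIntegral_convergent (s := 3 / 2) (by norm_num)
    rwa [show (3 / 2 - 1 : ℝ) = 1 / 2 by norm_num] at this
  have i4 : IntegrableOn (fun u : ℝ => Real.exp (-u) * u ^ (1 / 4 : ℝ)) (Ioi 0) := by
    have := Real.GammaIntegral_convergent (s := 5 / 4) (by norm_num)
    rwa [show (5 / 4 - 1 : ℝ) = 1 / 4 by norm_num] at this
  refine ⟨(∫ u in Ioi (0 : ℝ), Real.exp (-u) * u ^ (1 / 2 : ℝ)) * (a0 / √a0),
    (∫ u in Ioi (0 : ℝ), Real.exp (-u) * u ^ (1 / 4 : ℝ)) * (C / a0 ^ (1 / 4 : ℝ)),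
    fun V hV => ⟨summ k hV, ?_⟩⟩
  have ig : IntegrableOn (fun u : ℝ => Real.exp (-u) * u ^ (1 / 2 : ℝ) * (a0 / √a0 * √V))
      (Ioi 0) := i2.mul_const _
  have ie : IntegrableOn (fun u : ℝ => Real.exp (-u) * u ^ (1 / 4 : ℝ) *
      (C / a0 ^ (1 / 4 : ℝ) * V ^ (1 / 4 : ℝ))) (Ioi 0) := i4.mul_const _
  have hm : Measurable fun u : ℝ => Real.exp (-u) * cn (√(u * V / a0)) :=
    (by fun_prop : Measurable fun u : ℝ => Real.exp (-u)).mul
      (cn_mono.measurable.comp (by fun_prop))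
  have hb : ∀ᵐ u ∂(volume.restrict (Ioi (0 : ℝ))),
      ‖Real.exp (-u) * cn (√(u * V / a0)) - Real.exp (-u) * u ^ (1 / 2 : ℝ) * (a0 / √a0 * √V)‖ ≤
        Real.exp (-u) * u ^ (1 / 4 : ℝ) * (C / a0 ^ (1 / 4 : ℝ) * V ^ (1 / 4 : ℝ)) := by
    refine (ae_restrict_iff' measurableSet_Ioi).2 (Filter.Eventually.of_forall fun u hu => ?_)
    have hu' : 0 < u := hu
    have hx : 0 < u * V / a0 := div_pos (mul_pos hu' hV) a0_pos
    have h := hC _ (Real.sqrt_pos.2 hx)
    have e1 : u ^ (1 / 2 : ℝ) * (a0 / √a0 * √V) = a0 * √(u * V / a0) := by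
      rw [Real.sqrt_div (mul_pos hu' hV).le, Real.sqrt_mul hu'.le, ← Real.sqrt_eq_rpow]; ring
    have e2 : u ^ (1 / 4 : ℝ) * (C / a0 ^ (1 / 4 : ℝ) * V ^ (1 / 4 : ℝ)) =
        C * √(√(u * V / a0)) := by
      rw [Real.sqrt_eq_rpow, Real.sqrt_eq_rpow, ← Real.rpow_mul hx.le,
        show (1 / 2 * (1 / 2) : ℝ) = 1 / 4 by norm_num,
        Real.div_rpow (mul_pos hu' hV).le a0_pos.le, Real.mul_rpow hu'.le hV.le]
      ring
    rw [mul_assoc, mul_assoc, e1, e2, ← mul_sub, norm_mul, Real.norm_of_nonneg (Real.exp_pos _).le]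
    exact mul_le_mul_of_nonneg_left h (Real.exp_pos _).le
  have id : Integrable (fun u : ℝ => Real.exp (-u) * cn (√(u * V / a0)) -
      Real.exp (-u) * u ^ (1 / 2 : ℝ) * (a0 / √a0 * √V)) (volume.restrict (Ioi 0)) :=
    ie.mono' (hm.aestronglyMeasurable.sub ig.aestronglyMeasurable) hb
  have ih : Integrable (fun u : ℝ => Real.exp (-u) * cn (√(u * V / a0)))
      (volume.restrict (Ioi 0)) := by
    refine (id.add ig).congr (Filter.Eventually.of_forall fun u => ?_)
    simp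
  have h := norm_integral_le_of_norm_le ie hb
  rw [integral_sub ih ig, integral_mul_const, integral_mul_const] at h
  rw [layer k hV, mul_assoc, mul_assoc]
  exact h

end Pool.Agent.P.MP_26a8c3_nt.QL
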