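import Pool.Agent.P.MP_26a8c3_nt.QL.St

/-! The trivial bound and the reduction to one class and one dyadic range. -/

namespace Pool.Agent.P.MP_26a8c3_nt.QL

open Finset Pool.Agent.P.MP_26a8c3_nt.QO
open scoped Classical ComplexConjugate

namespace Triv

lemma sub {S : Finset O} {R : ℝ} (h : In S R) : S ⊆ (ball R).erase 0 := fun n hn =>
  mem_erase.2 ⟨(h n hn).1.1.1.ne_zero, by simpa [ball] using (h n hn).2⟩

lemma nr_nonneg (S : Finset O) (a : O → ℂ) : 0 ≤ nr S a := sum_nonneg fun _ _ => sq_nonneg _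

lemma norm_sum_sq {ι : Type*} (s : Finset ι) (f : ι → ℂ) :
    ‖∑ i ∈ s, f i‖ ^ 2 ≤ s.card * ∑ i ∈ s, ‖f i‖ ^ 2 :=
  (pow_le_pow_left₀ (norm_nonneg _) (norm_sum_le s f) 2).trans sq_sum_le_card_mul_sum_sq

/-- the class modulo four and the dyadic range -/
def ix (n : O) : (ZMod 4 × ZMod 4) × ℕ := (((n.re : ZMod 4), (n.im : ZMod 4)), Nat.clog 2 (N n))

lemma dvd_of_ix {n n' : O} (h : ix n = ix n') : (4 : O) ∣ n - n' := by
  have h1 : ((n.re : ℤ) : ZMod 4) = n'.re := congrArg (fun p => p.1.1) h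
  have h2 : ((n.im : ℤ) : ZMod 4) = n'.im := congrArg (fun p => p.1.2) h
  have h3 := (intCast_dvd_iff 4 (n - n')).2
    ⟨by simpa using (ZMod.intCast_eq_intCast_iff_dvd_sub _ _ 4).1 h1.symm,
      by simpa using (ZMod.intCast_eq_intCast_iff_dvd_sub _ _ 4).1 h2.symm⟩
  simpa using h3

lemma clog_le {ε R : ℝ} (hε : 0 < ε) (hR : 1 ≤ R) :
    ((Nat.clog 2 ⌊R⌋₊ + 1 : ℕ) : ℝ) ≤ (2 + 2 / ε) * R ^ ε := by
  have h1 : (1 : ℝ) ≤ R ^ ε := Real.one_le_rpow hR hε.le
  have hl : Real.log R ≤ R ^ ε / ε := Real.log_le_rpow_div (by linarith) hε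
  have hl0 : 0 ≤ Real.log R := Real.log_nonneg hR
  have e : (2 + 2 / ε) * R ^ ε = 2 * R ^ ε + 2 * (R ^ ε / ε) := by ring
  rw [e]
  rcases Nat.eq_zero_or_pos (Nat.clog 2 ⌊R⌋₊) with h | h
  · rw [h]
    push_cast
    linarith
  · have hx : 1 < ⌊R⌋₊ := by
      by_contra hn
      rw [Nat.clog_of_right_le_one (not_lt.1 hn)] at h
      exact lt_irrefl _ h
    have h2 := Nat.pow_pred_clog_lt_self (b := 2) (by norm_num) hx
    obtain ⟨j, hj⟩ := Nat.exists_eq_succ_of_ne_zero h.ne'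
    rw [hj] at h2 ⊢
    have h3 : (2 : ℝ) ^ j ≤ R := by
      have : ((2 ^ j : ℕ) : ℝ) ≤ (⌊R⌋₊ : ℝ) := by exact_mod_cast h2.le
      push_cast at this
      exact this.trans (Nat.floor_le (by linarith))
    have h4 := Real.log_le_log (by positivity) h3
    rw [Real.log_pow] at h4
    have h5 := Real.log_two_gt_d9
    have h6 : (0 : ℝ) ≤ j := Nat.cast_nonneg j
    push_cast
    nlinarith

end Triv

open Triv

theorem pTriv (k : Ok) : S_Triv := by
  obtain ⟨C, hC⟩ := k.cnt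
  have ha : 0 ≤ a0 := by unfold a0; positivity
  have hD : (1 : ℝ) ≤ a0 + |C| + 1 := by linarith [abs_nonneg C]
  have hc : ∀ y : ℝ, 0 ≤ y → (((ball y).erase 0).card : ℝ) ≤ (a0 + |C| + 1) * y := by
    intro y hy
    rcases lt_or_ge y 1 with h | h
    · have e : (ball y).erase 0 = ∅ := by
        refine eq_empty_of_forall_notMem fun x hx => ?_
        obtain ⟨h1, h2⟩ := mem_erase.1 hx
        have h3 : (N x : ℝ) ≤ y := by simpa [ball] using h2
        linarith [one_le_N h1]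
      rw [e, card_empty, Nat.cast_zero]
      positivity
    · have h1 := (abs_le.1 (hC y (by linarith))).2
      have h2 : √y ≤ y := Real.sqrt_le_self_iff.2 (Or.inr h)
      have h3 : C * √y ≤ |C| * y :=
        mul_le_mul (le_abs_self C) h2 (Real.sqrt_nonneg y) (abs_nonneg C)
      nlinarith
  refine ⟨(a0 + |C| + 1) ^ 2, one_le_pow₀ hD, fun y hy => (hc y hy).trans ?_,
    fun V R hV hR T S a hT hS => ?_⟩
  · exact mul_le_mul_of_nonneg_right (le_self_pow₀ hD two_ne_zero) hy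
  · have h1 : (T.card : ℝ) ≤ (a0 + |C| + 1) * V :=
      (Nat.cast_le.2 (card_le_card (sub hT))).trans (hc V hV)
    have h2 : (S.card : ℝ) ≤ (a0 + |C| + 1) * R :=
      (Nat.cast_le.2 (card_le_card (sub hS))).trans (hc R hR)
    have h3 : ∀ m ∈ T, ‖U S a m‖ ^ 2 ≤ (a0 + |C| + 1) * R * nr S a := fun m _ => by
      refine (norm_sum_sq S _).trans (mul_le_mul h2 (sum_le_sum fun n _ => ?_)
        (sum_nonneg fun _ _ => sq_nonneg _) (by positivity))
      refine pow_le_pow_left₀ (norm_nonneg _) ?_ 2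
      rw [norm_mul]
      exact mul_le_of_le_one_right (norm_nonneg _) (k.le n m)
    have h4 := nr_nonneg S a
    calc ∑ m ∈ T, ‖U S a m‖ ^ 2 ≤ T.card • ((a0 + |C| + 1) * R * nr S a) :=
          sum_le_card_nsmul T _ _ h3
      _ = T.card * ((a0 + |C| + 1) * R * nr S a) := nsmul_eq_mul _ _
      _ ≤ (a0 + |C| + 1) * V * ((a0 + |C| + 1) * R * nr S a) :=
          mul_le_mul_of_nonneg_right h1 (by positivity)
      _ = _ := by ring

theorem pPart : S_Part := by
  intro ε hε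
  refine ⟨16 * (2 + 2 / ε), by positivity, fun R B T hR hB h S a hS => ?_⟩
  set I : Finset ((ZMod 4 × ZMod 4) × ℕ) := univ ×ˢ range (Nat.clog 2 ⌊R⌋₊ + 1) with hI
  have hm : ∀ n ∈ S, ix n ∈ I := fun n hn => mem_product.2 ⟨mem_univ _,
    mem_range.2 (Nat.lt_succ_of_le (Nat.clog_mono_right 2 (Nat.le_floor (hS n hn).2)))⟩
  have hc : (I.card : ℝ) ≤ 16 * (2 + 2 / ε) * R ^ ε := by
    rw [hI, card_product, card_range, card_univ, Fintype.card_prod, ZMod.card, Nat.cast_mul,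
      mul_assoc]
    exact mul_le_mul (by norm_num) (clog_le hε hR) (Nat.cast_nonneg _) (by norm_num)
  have h1 : ∀ i ∈ I, ∑ m ∈ T, ‖U (S.filter fun n => ix n = i) a m‖ ^ 2 ≤
      B * nr (S.filter fun n => ix n = i) a := by
    intro i _
    refine h (min R (2 ^ i.2)) _ a (le_min hR (one_le_pow₀ one_le_two)) (min_le_left _ _)
      (fun n hn => ?_) (fun n hn => ?_) fun n hn n' hn' =>
        dvd_of_ix ((mem_filter.1 hn).2.trans (mem_filter.1 hn').2.symm)
    · obtain ⟨h2, rfl⟩ := mem_filter.1 hn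
      refine ⟨(hS n h2).1, le_min (hS n h2).2 ?_⟩
      exact_mod_cast Nat.le_pow_clog (b := 2) (by norm_num) (N n)
    · obtain ⟨h2, rfl⟩ := mem_filter.1 hn
      have h3 : min R (2 ^ (ix n).2) ≤ (2 : ℝ) ^ Nat.clog 2 (N n) := min_le_right _ _
      have h4 : 0 < N n := N_pos (hS n h2).1.1.1.ne_zero
      have h5 : 2 ^ Nat.clog 2 (N n) < 2 * N n := by
        rcases Nat.lt_or_ge 1 (N n) with h6 | h6
        · have h7 := Nat.pow_pred_clog_lt_self (b := 2) (by norm_num) h6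
          obtain ⟨j, hj⟩ := Nat.exists_eq_succ_of_ne_zero
            (Nat.clog_pos (b := 2) (by norm_num) h6).ne'
          rw [hj] at h7 ⊢
          rw [Nat.pred_succ] at h7
          rw [pow_succ]
          omega
        · rw [Nat.clog_of_right_le_one h6]
          omega
      have h8 : (2 : ℝ) ^ Nat.clog 2 (N n) < 2 * N n := by exact_mod_cast h5
      linarith
  have h2 : ∀ m ∈ T, ‖U S a m‖ ^ 2 ≤
      I.card * ∑ i ∈ I, ‖U (S.filter fun n => ix n = i) a m‖ ^ 2 := fun m _ => by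
    have e : U S a m = ∑ i ∈ I, U (S.filter fun n => ix n = i) a m :=
      (sum_fiberwise_of_maps_to hm _).symm
    rw [e]
    exact norm_sum_sq I _
  have h3 : ∑ i ∈ I, nr (S.filter fun n => ix n = i) a = nr S a := sum_fiberwise_of_maps_to hm _
  have h4 := nr_nonneg S a
  calc ∑ m ∈ T, ‖U S a m‖ ^ 2
      ≤ ∑ m ∈ T, I.card * ∑ i ∈ I, ‖U (S.filter fun n => ix n = i) a m‖ ^ 2 := sum_le_sum h2
    _ = I.card * ∑ i ∈ I, ∑ m ∈ T, ‖U (S.filter fun n => ix n = i) a m‖ ^ 2 := by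
        rw [← mul_sum, sum_comm]
    _ ≤ I.card * ∑ i ∈ I, B * nr (S.filter fun n => ix n = i) a :=
        mul_le_mul_of_nonneg_left (sum_le_sum h1) (Nat.cast_nonneg _)
    _ = I.card * (B * nr S a) := by rw [← mul_sum, h3]
    _ ≤ 16 * (2 + 2 / ε) * R ^ ε * (B * nr S a) := mul_le_mul_of_nonneg_right hc (by positivity)
    _ = _ := by ring

end Pool.Agent.P.MP_26a8c3_nt.QL
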