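import Pool.Agent.P.MP_26a8c3_nt.QL.Flip
import Pool.Agent.P.MP_26a8c3_nt.QL.Triv
import Pool.Agent.P.MP_26a8c3_nt.QL.Th0
import Pool.Agent.P.MP_26a8c3_nt.QL.Th
import Pool.Agent.P.MP_26a8c3_nt.QL.Fib
import Pool.Agent.P.MP_26a8c3_nt.QL.PQ
import Pool.Agent.P.MP_26a8c3_nt.QL.Kern
import Pool.Agent.P.MP_26a8c3_nt.QL.Schur
import Pool.Agent.P.MP_26a8c3_nt.QL.Star
import Pool.Agent.P.MP_26a8c3_nt.QL.DualB
import Pool.Agent.P.MP_26a8c3_nt.QL.Step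
import Pool.Agent.P.MP_26a8c3_nt.QL.Fin

/-! Assembly of the quadratic large sieve from the elementary inputs. -/

namespace Pool.Agent.P.MP_26a8c3_nt.QL

open Pool.Agent.P.MP_26a8c3_nt.QO

theorem fin_of_ok (k : Ok) (A : Alg) : S_Fin :=
  have ht := pTriv k
  have h0 := pTh0 k
  pFin ht (pDual k A) (pStep k ht pPart (pKern k (pSplit k ht h0 (pTh k h0) pFib) (pPQ k A))
    (pSchur k ht) (pStar k ht) (pDualB k (pSep k)))

theorem ls_of_ok (k : Ok) (A : Alg) : S_LS := flip A (fin_of_ok k A)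

end Pool.Agent.P.MP_26a8c3_nt.QL
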