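import Pool.Agent.P.MP_26a8c3_nt.QL.St

/-! Duality for the quadratic large sieve. -/

namespace Pool.Agent.P.MP_26a8c3_nt.QL

open Finset Pool.Agent.P.MP_26a8c3_nt.QO
open scoped Classical ComplexConjugate

namespace DualP

/-- duality for a finite matrix -/
lemma matrix_dual (T S : Finset O) (M : O → O → ℂ) (B : ℝ) (hB : 0 ≤ B)
    (h : ∀ b : O → ℂ, ∑ n ∈ S, ‖∑ m ∈ T, b m * M m n‖ ^ 2 ≤ B * ∑ m ∈ T, ‖b m‖ ^ 2)
    (a : O → ℂ) : ∑ m ∈ T, ‖∑ n ∈ S, a n * M m n‖ ^ 2 ≤ B * ∑ n ∈ S, ‖a n‖ ^ 2 := by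
  set u : O → ℂ := fun m => ∑ n ∈ S, a n * M m n with hu
  set X : ℝ := ∑ m ∈ T, ‖u m‖ ^ 2 with hX
  set Y : ℝ := ∑ n ∈ S, ‖a n‖ ^ 2 with hY
  have hX0 : 0 ≤ X := sum_nonneg fun _ _ => by positivity
  have hY0 : 0 ≤ Y := sum_nonneg fun _ _ => by positivity
  set v : O → ℂ := fun n => ∑ m ∈ T, conj (u m) * M m n with hv
  have h1 : ∑ n ∈ S, ‖v n‖ ^ 2 ≤ B * X := by
    have := h fun m => conj (u m)
    simpa [hX] using this
  have h2 : (X : ℂ) = ∑ n ∈ S, a n * v n := by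
    simp only [hv, mul_sum]
    rw [sum_comm, hX]
    push_cast
    refine sum_congr rfl fun m _ => ?_
    rw [← Complex.conj_mul', hu]
    simp only [mul_sum]
    refine sum_congr rfl fun n _ => ?_
    ring
  have h3 : X ≤ ∑ n ∈ S, ‖a n‖ * ‖v n‖ := by
    have : X = ‖(X : ℂ)‖ := by rw [Complex.norm_real, Real.norm_of_nonneg hX0]
    rw [this, h2]
    refine (norm_sum_le _ _).trans (le_of_eq (sum_congr rfl fun n _ => norm_mul _ _))
  have h4 : (∑ n ∈ S, ‖a n‖ * ‖v n‖) ^ 2 ≤ Y * ∑ n ∈ S, ‖v n‖ ^ 2 :=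
    sum_mul_sq_le_sq_mul_sq S _ _
  have h5 : X ^ 2 ≤ Y * (B * X) :=
    ((pow_le_pow_left₀ hX0 h3 2).trans h4).trans (mul_le_mul_of_nonneg_left h1 hY0)
  rcases hX0.eq_or_lt with h0 | h0
  · rw [← h0]; positivity
  · have : X * X ≤ (B * Y) * X := by nlinarith
    exact le_of_mul_le_mul_right this h0

/-- the class modulo four -/
def cl (m : O) : ZMod 4 × ZMod 4 := ((m.re : ZMod 4), (m.im : ZMod 4))

lemma four_dvd {m m' : O} (h : cl m = cl m') : (4 : O) ∣ m - m' := by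
  have h1 : (m.re : ZMod 4) = m'.re := congrArg Prod.fst h
  have h2 : (m.im : ZMod 4) = m'.im := congrArg Prod.snd h
  have e : (4 : O) = ((4 : ℤ) : O) := by norm_num
  rw [e, intCast_dvd_iff]
  constructor
  · have := (ZMod.intCast_eq_intCast_iff_dvd_sub m'.re m.re 4).1 h1.symm
    simpa using this
  · have := (ZMod.intCast_eq_intCast_iff_dvd_sub m'.im m.im 4).1 h2.symm
    simpa using this

end DualP

open DualP in
theorem pDual (_k : Ok) (A : Alg) : S_Dual := by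
  intro P R B hB h T S a hT hS
  have hnu : ∀ n, Od n → IsNu 4 (xi n) := A.gam.2.2.2.2.2.2.1
  have hn0 : 0 ≤ nr S a := sum_nonneg fun _ _ => by positivity
  have key : ∀ c : ZMod 4 × ZMod 4,
      ∑ m ∈ T.filter (fun m => cl m = c), ‖U S a m‖ ^ 2 ≤ B * nr S a := by
    intro c
    rcases (T.filter fun m => cl m = c).eq_empty_or_nonempty with he | ⟨m0, hm0⟩
    · rw [he, sum_empty]; positivity
    set Tc := T.filter fun m => cl m = c with hTc
    have hTcIn : In Tc P := fun m hm => hT m (mem_filter.1 hm).1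
    have hd := matrix_dual Tc S (fun m n => eta m n) B hB
      (fun b => h S Tc b hS hTcIn) (fun n => a n * xi n m0)
    have e1 : ∑ m ∈ Tc, ‖U S a m‖ ^ 2 = ∑ m ∈ Tc, ‖∑ n ∈ S, a n * xi n m0 * eta m n‖ ^ 2 := by
      refine sum_congr rfl fun m hm => ?_
      congr 2
      refine sum_congr rfl fun n hn => ?_
      have hon : Od n := (hS n hn).1.2
      have hom : Od m := (hTcIn m hm).1.2
      have h4 : (4 : O) ∣ m - m0 :=
        four_dvd ((mem_filter.1 hm).2.trans (mem_filter.1 hm0).2.symm)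
      rw [A.qr.2.1 n m hon hom, (hnu n hon).per m m0 h4]
      ring
    rw [e1]
    refine hd.trans (mul_le_mul_of_nonneg_left (sum_le_sum fun n hn => ?_) hB)
    have h1 : ‖xi n m0‖ ≤ 1 := (hnu n (hS n hn).1.2).le m0
    rw [norm_mul]
    exact pow_le_pow_left₀ (by positivity) (mul_le_of_le_one_right (norm_nonneg _) h1) 2
  rw [← sum_fiberwise_of_maps_to (s := T) (t := (univ : Finset (ZMod 4 × ZMod 4))) (g := cl)
    (fun _ _ => mem_univ _)]
  refine (sum_le_sum fun c _ => key c).trans (le_of_eq ?_)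
  rw [sum_const, card_univ, Fintype.card_prod, ZMod.card, nsmul_eq_mul]
  push_cast
  ring

end Pool.Agent.P.MP_26a8c3_nt.QL
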