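import Pool.Agent.P.MP_26a8c3_nt.QL.Dual
import Pool.Agent.P.MP_26a8c3_nt.QO.Top

/-! The large sieve with the outer variable as the modulus. -/

namespace Pool.Agent.P.MP_26a8c3_nt.QL

open Finset Pool.Agent.P.MP_26a8c3_nt.QO
open scoped Classical ComplexConjugate

open DualP in
theorem flip (A : Alg) (h : S_Fin) : S_LS := by
  obtain ⟨C, hC, h⟩ := h
  refine ⟨16 * C, by positivity, fun P R S T a hP hR hS hT => ?_⟩
  have hnu : ∀ n, Od n → IsNu 4 (xi n) := A.gam.2.2.2.2.2.2.1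
  have hsym : ∀ a b, xi a b = xi b a := A.gam.2.2.2.2.1
  have hB : 0 ≤ C * (P ^ (6 / 5 : ℝ) + R ^ (33 / 20 : ℝ)) := by positivity
  have key : ∀ c : ZMod 4 × ZMod 4,
      ∑ m ∈ T.filter (fun m => cl m = c), ‖∑ n ∈ S, a n * eta m n‖ ^ 2 ≤
        C * (P ^ (6 / 5 : ℝ) + R ^ (33 / 20 : ℝ)) * ∑ n ∈ S, ‖a n‖ ^ 2 := by
    intro c
    rcases (T.filter fun m => cl m = c).eq_empty_or_nonempty with he | ⟨m0, hm0⟩
    · rw [he, sum_empty]; positivity
    set Tc := T.filter fun m => cl m = c with hTc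
    have hTcIn : In Tc P := fun m hm => hT m (mem_filter.1 hm).1
    have hd := h P R hP hR Tc S (fun n => a n * xi n m0) hTcIn hS
    have e1 : ∑ m ∈ Tc, ‖∑ n ∈ S, a n * eta m n‖ ^ 2 =
        ∑ m ∈ Tc, ‖U S (fun n => a n * xi n m0) m‖ ^ 2 := by
      refine sum_congr rfl fun m hm => ?_
      congr 2
      refine sum_congr rfl fun n hn => ?_
      have hon : Od n := (hS n hn).1.2
      have hom : Od m := (hTcIn m hm).1.2
      have h4 : (4 : O) ∣ m - m0 :=
        four_dvd ((mem_filter.1 hm).2.trans (mem_filter.1 hm0).2.symm)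
      rw [A.qr.2.1 m n hom hon, hsym m n, (hnu n hon).per m m0 h4]
      ring
    rw [e1]
    refine hd.trans (mul_le_mul_of_nonneg_left (sum_le_sum fun n hn => ?_) hB)
    have h1 : ‖xi n m0‖ ≤ 1 := (hnu n (hS n hn).1.2).le m0
    rw [norm_mul]
    exact pow_le_pow_left₀ (by positivity) (mul_le_of_le_one_right (norm_nonneg _) h1) 2
  rw [← sum_fiberwise_of_maps_to (s := T) (t := (univ : Finset (ZMod 4 × ZMod 4))) (g := cl)
    (fun _ _ => mem_univ _)]
  refine (sum_le_sum fun c _ => key c).trans (le_of_eq ?_)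
  rw [sum_const, card_univ, Fintype.card_prod, ZMod.card, nsmul_eq_mul, LL]
  push_cast
  ring

end Pool.Agent.P.MP_26a8c3_nt.QL
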