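import Pool.Agent.P.MP_26a8c3_nt.QL.St
import Pool.Agent.P.MP_26a8c3_nt.QA.Mel

/-! Separation of variables in the dual sum of the quadratic large sieve. -/

namespace Pool.Agent.P.MP_26a8c3_nt.QL

open Finset Pool.Agent.P.MP_26a8c3_nt.QO
open scoped Classical ComplexConjugate

namespace Sp

lemma one_le_a0 : 1 ≤ a0 := by
  have h : √3 ≤ 2 := Real.sqrt_le_iff.2 ⟨by norm_num, by norm_num⟩
  rw [a0, le_div_iff₀ sqrt3_pos]
  nlinarith [Real.pi_gt_three]

lemma norm_tsum_le {f : O → ℂ} {B : ℝ} (h : ∀ s : Finset O, ∑ x ∈ s, ‖f x‖ ≤ B) :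
    ‖∑' x, f x‖ ≤ B := by
  have hs : Summable fun x => ‖f x‖ := summable_of_sum_le (fun _ => norm_nonneg _) h
  exact (norm_tsum_le_tsum_norm hs).trans (hs.tsum_le_of_sum_le h)

lemma nr_nonneg (S : Finset O) (a : O → ℂ) : 0 ≤ nr S a := sum_nonneg fun _ _ => by positivity

lemma G_pos (y : ℝ) : 0 < G y := Real.exp_pos _

lemma summable_big (k : Ok) (K : ℝ) (a b : O) {V : ℝ} (hV : 0 < V) :
    Summable fun x : O => if Big K x then eta a x * eta b x * (G (N x / V) : ℝ) else 0 := by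
  refine Summable.of_norm_bounded (k.sumG V hV) fun x => ?_
  have hG := G_pos (N x / V)
  split_ifs
  · rw [norm_mul, norm_mul, Complex.norm_real, Real.norm_of_nonneg hG.le]
    exact mul_le_of_le_one_left hG.le (mul_le_one₀ (k.le _ _) (norm_nonneg _) (k.le _ _))
  · simpa using hG.le

/-- the coefficients -/
noncomputable def al (S : Finset O) (a : O → ℂ) (x : O → ℝ) (h : O) (i : S) : ℂ :=
  a i * ((1 / √(x i) : ℝ) : ℂ) * eta i h

lemma DS_eq (S : Finset O) (a : O → ℂ) (x : O → ℝ) (h : O) (σ u : ℝ) :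
    QA.DS (al S a x h) (fun i : S => x i) σ u =
      U S (fun n => a n * (((1 / √(x n) : ℝ) : ℂ) * (x n : ℂ) ^ ((σ : ℂ) + u * Complex.I))) h := by
  rw [QA.DS, tsum_fintype, U, ← Finset.sum_coe_sort S]
  refine sum_congr rfl fun i _ => ?_
  rw [al]; ring

lemma nr_le {S : Finset O} {a : O → ℂ} {x : O → ℝ} {σ W : ℝ} (u : ℝ) (hx : ∀ n ∈ S, 0 < x n)
    (hW : ∀ n ∈ S, (x n ^ σ) ^ 2 / x n ≤ W) :
    nr S (fun n => a n * (((1 / √(x n) : ℝ) : ℂ) * (x n : ℂ) ^ ((σ : ℂ) + u * Complex.I))) ≤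
      W * nr S a := by
  rw [nr, nr, mul_sum]
  refine sum_le_sum fun n hn => ?_
  have h0 := hx n hn
  rw [norm_mul, QA.norm_term h0, Complex.norm_real, Real.norm_of_nonneg (by positivity), mul_pow,
    mul_pow, div_pow, Real.sq_sqrt h0.le, mul_comm W]
  refine mul_le_mul_of_nonneg_left ((le_of_eq ?_).trans (hW n hn)) (by positivity)
  ring

lemma blk {K R β : ℝ} {M : ℝ → ℝ} (hst : St K R β M) {S : Finset O} (hS : In S R) (a : O → ℂ)
    {x : O → ℝ} {σ W V B : ℝ} (hx : ∀ n ∈ S, 0 < x n) (hW : ∀ n ∈ S, (x n ^ σ) ^ 2 / x n ≤ W)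
    (hV : 0 < V) (hB0 : 0 ≤ B) (hB : β * (1 + V / R ^ 2) * (√(V / K) * R + M V) ≤ B)
    {t : Finset O} (ht : ∀ h ∈ t, Big K h ∧ (N h : ℝ) ≤ V) (u : ℝ) :
    ∑ h ∈ t, ‖QA.DS (al S a x h) (fun i : S => x i) σ u‖ *
      ‖QA.DS (al S (fun n => conj (a n)) x h) (fun i : S => x i) σ u‖ ≤ B * (W * nr S a) := by
  have key : ∀ b : O → ℂ, nr S b = nr S a →
      ∑ h ∈ t, ‖QA.DS (al S b x h) (fun i : S => x i) σ u‖ ^ 2 ≤ B * (W * nr S a) := by
    intro b hb
    simp only [DS_eq]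
    refine (hst V t S _ hV ht hS).trans ?_
    refine (mul_le_mul_of_nonneg_right hB (nr_nonneg _ _)).trans ?_
    rw [← hb]
    exact mul_le_mul_of_nonneg_left (nr_le u hx hW) hB0
  have h1 := key a rfl
  have h2 := key (fun n => conj (a n)) (by simp [nr])
  have h3 : ∑ h ∈ t, ‖QA.DS (al S a x h) (fun i : S => x i) σ u‖ *
      ‖QA.DS (al S (fun n => conj (a n)) x h) (fun i : S => x i) σ u‖ ≤
      ∑ h ∈ t, (‖QA.DS (al S a x h) (fun i : S => x i) σ u‖ ^ 2 +
      ‖QA.DS (al S (fun n => conj (a n)) x h) (fun i : S => x i) σ u‖ ^ 2) / 2 :=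
    sum_le_sum fun h _ => by
      nlinarith [sq_nonneg (‖QA.DS (al S a x h) (fun i : S => x i) σ u‖ -
        ‖QA.DS (al S (fun n => conj (a n)) x h) (fun i : S => x i) σ u‖)]
  rw [← sum_div, sum_add_distrib] at h3
  linarith

lemma expand (k : Ok) (K : ℝ) {A : ℝ} (hA : 0 < A) (S : Finset O) (a : O → ℂ) {x : O → ℝ}
    (hx : ∀ n ∈ S, 0 < x n) :
    ∑ m ∈ S, ∑ n ∈ S, a m * conj (a n) * (((1 / √(x m * x n) : ℝ) : ℂ) *
      BigS K m n (x m * x n / A)) =
    ∑' h : O, if Big K h then QA.KS (al S a x h) (al S (fun n => conj (a n)) x h)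
      (fun i : S => x i) (fun i : S => x i) (a0 * A * N h) else 0 := by
  have hs : ∀ m ∈ S, ∀ n ∈ S, Summable fun h : O => a m * conj (a n) *
      (((1 / √(x m * x n) : ℝ) : ℂ) *
        if Big K h then eta m h * eta n h * (G (N h / (x m * x n / A)) : ℝ) else 0) :=
    fun m hm n hn => ((summable_big k K m n
      (div_pos (mul_pos (hx m hm) (hx n hn)) hA)).mul_left _).mul_left _
  simp only [BigS, ← tsum_mul_left]
  rw [sum_congr rfl fun m hm => (Summable.tsum_finsetSum fun n hn => hs m hm n hn).symm,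
    ← Summable.tsum_finsetSum fun m hm => summable_sum fun n hn => hs m hm n hn]
  refine tsum_congr fun h => ?_
  split_ifs
  · rw [QA.KS, tsum_fintype, Fintype.sum_prod_type, ← Finset.sum_coe_sort S]
    refine sum_congr rfl fun i _ => ?_
    rw [← Finset.sum_coe_sort S]
    refine sum_congr rfl fun j _ => ?_
    have hi := hx i i.2
    have hj := hx j j.2
    have e1 : G (N h / (x i * x j / A)) = Real.exp (-(a0 * A * N h / (x i * x j))) := by
      rw [G]; congr 2; field_simp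
    rw [e1, al, al, Real.sqrt_mul hi.le]
    push_cast
    ring
  · simp

lemma grow {K R β V z : ℝ} {M : ℝ → ℝ} (hM : Sc M) (hβ : 0 ≤ β) (hK : 0 < K) (hR : 0 < R)
    (hV : 0 < V) (hVR : V ≤ R ^ 2) (hz : 1 ≤ z) :
    β * (1 + z * V / R ^ 2) * (√(z * V / K) * R + M (z * V)) ≤
      2 * z ^ 3 * (β * (√(V / K) * R + M V)) := by
  have h1 : 1 + z * V / R ^ 2 ≤ 2 * z := by
    have : V / R ^ 2 ≤ 1 := (div_le_one (by positivity)).2 hVR
    rw [mul_div_assoc]; nlinarith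
  have h2 : √(z * V / K) ≤ z ^ 2 * √(V / K) := by
    rw [mul_div_assoc, Real.sqrt_mul (by linarith)]
    refine mul_le_mul_of_nonneg_right (Real.sqrt_le_iff.2 ⟨by positivity, ?_⟩) (Real.sqrt_nonneg _)
    calc z = z ^ 1 := (pow_one z).symm
      _ ≤ z ^ 4 := pow_le_pow_right₀ hz (by norm_num)
      _ = (z ^ 2) ^ 2 := by ring
  have h3 := hM.2.2 V z hV hz
  have h4 := hM.1 (z * V) (by positivity)
  calc β * (1 + z * V / R ^ 2) * (√(z * V / K) * R + M (z * V))
      ≤ β * (2 * z) * (z ^ 2 * √(V / K) * R + z ^ 2 * M V) := by gcongr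
    _ = _ := by ring

end Sp

open Sp in
theorem pSep (k : Ok) : S_Sep := by
  intro ε hε
  have g1 := QA.GK_nonneg (ε / 2) 0
  have g2 := QA.GK_nonneg 4 0
  refine ⟨4 * QA.GK (ε / 2) 0 + 32 * QA.GK 4 0 + 1, by positivity, ?_⟩
  intro K R β R0 A M S a x hK hβ hR0 hR hA hM hst hS hx
  have hR00 : 0 < R0 := by linarith
  have hRp : 0 < R := by linarith
  have hA0 : 0 < A := by linarith
  have hx0 : ∀ n ∈ S, 0 < x n := fun n hn => by linarith [(hx n hn).1]
  set V : ℝ := R0 ^ 2 / A with hVd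
  have hV : 0 < V := by positivity
  have hVR : V ≤ R ^ 2 := (div_le_self (by positivity) hA).trans (by gcongr)
  set Q : ℝ := β * (√(V / K) * R + M V) with hQ
  have hQ0 : 0 ≤ Q := by have := hM.1 V hV; positivity
  have hn0 := nr_nonneg S a
  have ha0 := one_le_a0
  have hc : 1 ≤ a0 * A := one_le_mul_of_one_le_of_one_le ha0 hA
  have he1 : 1 ≤ R0 ^ ε := Real.one_le_rpow hR0 hε.le
  rw [expand k K hA0 S a hx0]
  refine norm_tsum_le fun s => ?_
  have e0 : ∑ h ∈ s, ‖if Big K h then QA.KS (al S a x h) (al S (fun n => conj (a n)) x h)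
      (fun i : S => x i) (fun i : S => x i) (a0 * A * N h) else 0‖ =
      ∑ h ∈ s.filter (Big K), ‖QA.KS (al S a x h) (al S (fun n => conj (a n)) x h)
      (fun i : S => x i) (fun i : S => x i) (a0 * A * N h)‖ := by
    rw [sum_filter]
    refine sum_congr rfl fun h _ => ?_
    split_ifs <;> simp
  have e1 : ∀ j : ℕ, ((2 : ℝ) ^ j) ^ (-(4 : ℝ)) * (2 * (2 ^ (j + 1)) ^ 3 * Q * (R0 ^ 7 * nr S a)) =
      16 * (Q * (R0 ^ 7 * nr S a)) * (1 / 2) ^ j := by
    intro j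
    rw [Real.rpow_neg (by positivity), show (4 : ℝ) = ((4 : ℕ) : ℝ) by norm_num, Real.rpow_natCast,
      one_div, inv_pow]
    field_simp
    ring
  have hW0 : ∀ n ∈ S, (x n ^ (ε / 2)) ^ 2 / x n ≤ 2 * R0 ^ ε / R0 := by
    intro n hn
    have h0 := hx0 n hn
    rw [← Real.rpow_natCast, ← Real.rpow_mul h0.le, show ε / 2 * ((2 : ℕ) : ℝ) = ε by push_cast; ring,
      div_le_div_iff₀ h0 hR00]
    have h1 : x n ^ ε ≤ R0 ^ ε := Real.rpow_le_rpow h0.le (hx n hn).2 hε.le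
    have h2 := (hx n hn).1
    nlinarith [Real.rpow_pos_of_pos h0 ε]
  have hW1 : ∀ n ∈ S, (x n ^ (4 : ℝ)) ^ 2 / x n ≤ R0 ^ 7 := by
    intro n hn
    have h0 := hx0 n hn
    rw [show (4 : ℝ) = ((4 : ℕ) : ℝ) by norm_num, Real.rpow_natCast]
    calc (x n ^ 4) ^ 2 / x n = x n ^ 7 := by field_simp
      _ ≤ R0 ^ 7 := pow_le_pow_left₀ h0.le (hx n hn).2 7
  have main := QA.sep_dyadic (α := fun h => al S a x h)
    (β := fun h => al S (fun n => conj (a n)) x h) (x := fun i : S => x i) (y := fun i : S => x i)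
    (fun i => hx0 i i.2) (fun i => hx0 i i.2) (ε := ε / 2) (σ := 4) (c := a0 * A) (V := V)
    (b0 := 2 * Q * (2 * R0 ^ ε / R0 * nr S a))
    (b := fun j => 2 * (2 ^ (j + 1)) ^ 3 * Q * (R0 ^ 7 * nr S a)) (k := 0) (by positivity)
    (by norm_num) (by positivity) hV (s.filter (Big K)) (N := fun h => (N h : ℝ))
    (fun h hh => one_le_N (mem_filter.1 hh).2.1) (fun _ _ => Summable.of_finite)
    (fun _ _ => Summable.of_finite) (fun _ _ => Summable.of_finite) (fun _ _ => Summable.of_finite)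
    (fun t ht hN u => by
      rw [pow_zero, mul_one]
      refine blk hst hS a hx0 hW0 hV (by positivity) ?_
        (fun h hh => ⟨(mem_filter.1 (ht hh)).2, hN h hh⟩) u
      simpa using grow hM hβ (by linarith : 0 < K) hRp hV hVR le_rfl)
    (fun j t ht hN u => by
      rw [pow_zero, mul_one]
      exact blk hst hS a hx0 hW1 (by positivity) (by positivity)
        (grow hM hβ (by linarith) hRp hV hVR (one_le_pow₀ one_le_two))
        (fun h hh => ⟨(mem_filter.1 (ht hh)).2, (hN h hh).2⟩) u)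
    (by simp only [e1]; exact summable_geometric_two.mul_left _)
  rw [e0]
  refine main.trans ?_
  simp only [e1]
  rw [tsum_mul_left, tsum_geometric_two]
  have h1 : (a0 * A) ^ (-(ε / 2)) ≤ 1 := Real.rpow_le_one_of_one_le_of_nonpos hc (by linarith)
  have h2 : (a0 * A * V) ^ (-(4 : ℝ)) ≤ 1 / R0 ^ 8 := by
    have h3 : R0 ^ 2 ≤ a0 * A * V := by
      have : a0 * A * V = a0 * R0 ^ 2 := by rw [hVd]; field_simp
      rw [this]; exact le_mul_of_one_le_left (by positivity) ha0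
    refine (Real.rpow_le_rpow_of_nonpos (by positivity) h3 (by norm_num)).trans (le_of_eq ?_)
    rw [Real.rpow_neg (by positivity), show (4 : ℝ) = ((4 : ℕ) : ℝ) by norm_num, Real.rpow_natCast]
    field_simp
  have h4 : 0 ≤ R0 ^ ε * (Q * nr S a / R0) := by positivity
  calc _ ≤ QA.GK (ε / 2) 0 * (1 * (2 * Q * (2 * R0 ^ ε / R0 * nr S a))) +
        QA.GK 4 0 * (1 / R0 ^ 8 * (16 * (Q * (R0 ^ 7 * nr S a)) * 2)) := by gcongr
    _ = 4 * QA.GK (ε / 2) 0 * (R0 ^ ε * (Q * nr S a / R0)) +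
        32 * QA.GK 4 0 * (1 * (Q * nr S a / R0)) := by field_simp; ring
    _ ≤ 4 * QA.GK (ε / 2) 0 * (R0 ^ ε * (Q * nr S a / R0)) +
        32 * QA.GK 4 0 * (R0 ^ ε * (Q * nr S a / R0)) + R0 ^ ε * (Q * nr S a / R0) := by
        refine le_add_of_le_of_nonneg ?_ h4
        gcongr
    _ = _ := by rw [hQ]; field_simp

end Pool.Agent.P.MP_26a8c3_nt.QL
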