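import Pool.Agent.P.MP_26a8c3_nt.QO.StR

/-! Statements of the layer: a crude quadratic large sieve on the Eisenstein integers. -/

namespace Pool.Agent.P.MP_26a8c3_nt.QL

open Finset Pool.Agent.P.MP_26a8c3_nt.QO
open scoped Classical ComplexConjugate

noncomputable section

/-- elementary inputs -/
structure Ok : Prop where
  le : ∀ n x, ‖eta n x‖ ≤ 1
  real : ∀ n x, conj (eta n x) = eta n x
  mul : ∀ n x y, eta n (x * y) = eta n x * eta n y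
  sq : ∀ n t, n ≠ 0 → eta n (t ^ 2) = cop n t
  mu_le : ∀ n, ‖mu n‖ ≤ 1
  mu_one : mu 1 = 1
  mu_sum : ∀ n t, Primary n → ∑ d ∈ (pdiv n).filter (· ∣ t), mu d = cop n t
  cnt : ∃ C : ℝ, ∀ y : ℝ, 0 < y → |(((ball y).erase 0).card : ℝ) - a0 * y| ≤ C * √y
  dvb : ∀ ε : ℝ, 0 < ε → ∃ C : ℝ, 0 < C ∧ ∀ n : O, n ≠ 0 → dv n ≤ C * (N n : ℝ) ^ ε
  zeta : ∃ C : ℝ, ∀ s : Finset O, ∑ x ∈ s, 1 / (N x : ℝ) ^ 2 ≤ C
  sumG : ∀ V : ℝ, 0 < V → Summable fun x : O => G (N x / V)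

/-- the character sum -/
def U (S : Finset O) (a : O → ℂ) (x : O) : ℂ := ∑ n ∈ S, a n * eta n x

/-- the squared norm of the coefficients -/
def nr (S : Finset O) (a : O → ℂ) : ℝ := ∑ n ∈ S, ‖a n‖ ^ 2

/-- a set of moduli of norm at most `R` -/
def In (S : Finset O) (R : ℝ) : Prop := ∀ n ∈ S, SQO n ∧ (N n : ℝ) ≤ R

/-- the large sieve inequality with constant `B` -/
def LSB (P R B : ℝ) : Prop :=
  ∀ (T S : Finset O) (a : O → ℂ), In T P → In S R → ∑ m ∈ T, ‖U S a m‖ ^ 2 ≤ B * nr S a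

/-- nonzero with squarefree part of norm above `K` -/
def Big (K : ℝ) (x : O) : Prop := x ≠ 0 ∧ ∀ w t : O, Squarefree w → x = w * t ^ 2 → K < N w

/-- the full kernel -/
def Full (a b : O) (V : ℝ) : ℂ := ∑' x : O, eta a x * eta b x * (G (N x / V) : ℝ)

/-- the kernel restricted to large squarefree parts -/
def BigS (K : ℝ) (a b : O) (V : ℝ) : ℂ :=
  ∑' x : O, if Big K x then eta a x * eta b x * (G (N x / V) : ℝ) else 0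

/-- the dual kernel -/
def Dual (K P : ℝ) (a b : O) : ℂ :=
  ∑ e ∈ (pdiv a).filter (· ∣ b), ∑ f ∈ pdiv e, mu e * mu f * ((P * N f / √(N a * N b) : ℝ) : ℂ) *
    BigS K (quo a e) (quo b e) (N a * N b / (P * (N f : ℝ) ^ 2))

/-- growth between linear and quadratic -/
def Sc (M : ℝ → ℝ) : Prop :=
  (∀ V, 0 < V → 0 ≤ M V) ∧ (∀ V z, 0 < V → 1 ≤ z → M (V / z) ≤ M V / z) ∧
    ∀ V z, 0 < V → 1 ≤ z → M (z * V) ≤ z ^ 2 * M V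

/-- the input of one step -/
def Hy (R β : ℝ) (M : ℝ → ℝ) : Prop :=
  ∀ V, 0 < V → LSB V R (β * (1 + V / R ^ 2) * (R + M V))

/-- the same for all arguments with large squarefree part -/
def St (K R β : ℝ) (M : ℝ → ℝ) : Prop :=
  ∀ (V : ℝ) (T S : Finset O) (a : O → ℂ), 0 < V → (∀ x ∈ T, Big K x ∧ (N x : ℝ) ≤ V) → In S R →
    ∑ x ∈ T, ‖U S a x‖ ^ 2 ≤ β * (1 + V / R ^ 2) * (√(V / K) * R + M V) * nr S a

/-- the output of one step -/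
def Out (K P R : ℝ) (M : ℝ → ℝ) : ℝ :=
  P + √(P / K) * R + P / R * M (R ^ 2 / P) + K * R * P ^ (1 / 4 : ℝ) +
    K * P ^ (3 / 4 : ℝ) * R ^ (1 / 2 : ℝ)

/-- duality -/
def S_Dual : Prop := ∀ P R B : ℝ, 0 ≤ B → LSB R P B → LSB P R (16 * B)

/-- the trivial bound -/
def S_Triv : Prop := ∃ C : ℝ, 1 ≤ C ∧ (∀ y : ℝ, 0 ≤ y → (((ball y).erase 0).card : ℝ) ≤ C * y) ∧
  ∀ V R : ℝ, 0 ≤ V → 0 ≤ R → LSB V R (C * (V * R))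

/-- reduction to one class modulo four and one dyadic range -/
def S_Part : Prop :=
  ∀ ε : ℝ, 0 < ε → ∃ C : ℝ, 0 < C ∧ ∀ (R B : ℝ) (T : Finset O), 1 ≤ R → 0 ≤ B →
    (∀ (R0 : ℝ) (S : Finset O) (a : O → ℂ), 1 ≤ R0 → R0 ≤ R → In S R0 → (∀ n ∈ S, R0 / 2 < N n) →
      (∀ n ∈ S, ∀ n' ∈ S, 4 ∣ n - n') → ∑ m ∈ T, ‖U S a m‖ ^ 2 ≤ B * nr S a) →
    ∀ (S : Finset O) (a : O → ℂ), In S R → ∑ m ∈ T, ‖U S a m‖ ^ 2 ≤ C * R ^ ε * B * nr S a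

/-- the sum over squares -/
def S_Th0 : Prop :=
  ∃ c C : ℝ, ∀ V : ℝ, 0 < V →
    (Summable fun t : O => G ((N t : ℝ) ^ 2 / V)) ∧
    |(∑' t : O, if t = 0 then 0 else G ((N t : ℝ) ^ 2 / V)) - c * √V| ≤ C * V ^ (1 / 4 : ℝ)

/-- the sum over squares prime to `n` -/
def S_Th : Prop :=
  ∃ c : O → ℂ, ∀ ε : ℝ, 0 < ε → ∃ C : ℝ, 0 < C ∧ ∀ (n : O) (V : ℝ), Primary n → 0 < V →
    ‖(∑' t : O, if t = 0 then 0 else cop n t * (G ((N t : ℝ) ^ 2 / V) : ℝ)) - (√V : ℝ) * c n‖ ≤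
      C * (N n : ℝ) ^ ε * V ^ (1 / 4 : ℝ)

/-- sorting by the squarefree part -/
def S_Fib : Prop :=
  ∀ (K : ℝ) (F : O → ℂ), (Summable fun x => ‖F x‖) →
    ∑' x, F x = F 0 + (∑' x, if Big K x then F x else 0) +
      (1 / 6) * ∑ w ∈ (ball K).filter Squarefree, ∑' t : O, if t = 0 then 0 else F (w * t ^ 2)

/-- the kernel is the zero term, the large part, a main term and an error -/
def S_Split : Prop :=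
  ∀ ε : ℝ, 0 < ε → ∃ C : ℝ, 0 < C ∧ ∀ K : ℝ, 1 ≤ K → ∃ mK : O → O → ℂ, ∀ (a b : O) (V : ℝ),
    SQO a → SQO b → 0 < V →
    ‖Full a b V - eta a 0 * eta b 0 - BigS K a b V - (√V : ℝ) * mK a b‖ ≤
      C * K * ((N a : ℝ) * N b) ^ ε * V ^ (1 / 4 : ℝ)

/-- Poisson summation for the full kernel -/
def S_PQ : Prop :=
  ∀ (a b : O) (P : ℝ), SQO a → SQO b → 4 ∣ a - b → 0 < P →
    Full a b P = ∑ e ∈ (pdiv a).filter (· ∣ b), ∑ f ∈ pdiv e,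
      mu e * mu f * ((P * N f / √(N a * N b) : ℝ) : ℂ) *
        Full (quo a e) (quo b e) (N a * N b / (P * (N f : ℝ) ^ 2))

/-- the main terms cancel -/
def S_Kern : Prop :=
  ∀ ε : ℝ, 0 < ε → ∃ C : ℝ, 0 < C ∧ ∀ (K P R0 : ℝ) (a b : O), 1 ≤ K → 1 ≤ P → 1 ≤ R0 →
    SQO a → SQO b → 4 ∣ a - b → R0 / 2 < N a → (N a : ℝ) ≤ R0 → R0 / 2 < N b → (N b : ℝ) ≤ R0 →
    ‖BigS K a b P - Dual K P a b‖ ≤ C * R0 ^ ε * ((if a = b then P else 0) + K * P ^ (1 / 4 : ℝ) +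
      K * P ^ (3 / 4 : ℝ) / √R0 * ∑ e ∈ (pdiv a).filter (· ∣ b), √(N e))

/-- the error matrix -/
def S_Schur : Prop :=
  ∀ ε : ℝ, 0 < ε → ∃ C : ℝ, 0 < C ∧ ∀ (R0 x y z : ℝ) (S : Finset O) (a : O → ℂ) (E : O → O → ℂ),
    1 ≤ R0 → 0 ≤ x → 0 ≤ y → 0 ≤ z → In S R0 →
    (∀ m ∈ S, ∀ n ∈ S, ‖E m n‖ ≤ (if m = n then x else 0) + y +
      z * ∑ e ∈ (pdiv m).filter (· ∣ n), √(N e)) →
    ‖∑ m ∈ S, ∑ n ∈ S, a m * conj (a n) * E m n‖ ≤ C * R0 ^ ε * (x + y * R0 + z * R0) * nr S a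

/-- from squarefree arguments to all arguments -/
def S_Star : Prop :=
  ∃ C : ℝ, 1 ≤ C ∧ ∀ (K R β : ℝ) (M : ℝ → ℝ), 1 ≤ K → 1 ≤ R → 0 ≤ β → Sc M → Hy R β M →
    St K R (C * β) M

/-- separation of variables -/
def S_Sep : Prop :=
  ∀ ε : ℝ, 0 < ε → ∃ C : ℝ, 0 < C ∧ ∀ (K R β R0 A : ℝ) (M : ℝ → ℝ) (S : Finset O) (a : O → ℂ)
    (x : O → ℝ), 1 ≤ K → 0 ≤ β → 1 ≤ R0 → R0 ≤ R → 1 ≤ A → Sc M → St K R β M → In S R →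
    (∀ n ∈ S, R0 / 2 < x n ∧ x n ≤ R0) →
    ‖∑ m ∈ S, ∑ n ∈ S, a m * conj (a n) * (((1 / √(x m * x n) : ℝ) : ℂ) *
      BigS K m n (x m * x n / A))‖ ≤
      C * R0 ^ ε * β / R0 * (√(R0 ^ 2 / A / K) * R + M (R0 ^ 2 / A)) * nr S a

/-- the dual sum -/
def S_DualB : Prop :=
  ∀ ε : ℝ, 0 < ε → ∃ C : ℝ, 0 < C ∧ ∀ (K P R β R0 : ℝ) (M : ℝ → ℝ) (S : Finset O) (a : O → ℂ),
    1 ≤ K → 1 ≤ P → 0 ≤ β → 1 ≤ R0 → R0 ≤ R → Sc M → St K R β M → In S R0 →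
    (∀ n ∈ S, R0 / 2 < N n) →
    ‖∑ m ∈ S, ∑ n ∈ S, a m * conj (a n) * Dual K P m n‖ ≤
      C * R0 ^ ε * β * (√(P / K) * R + P / R * M (R ^ 2 / P)) * nr S a

/-- one step -/
def S_Step : Prop :=
  ∀ ε : ℝ, 0 < ε → ∃ C : ℝ, 1 ≤ C ∧ ∀ (K P R β : ℝ) (M : ℝ → ℝ), 1 ≤ K → 1 ≤ P → 1 ≤ R → 1 ≤ β →
    Sc M → Hy R β M → LSB P R (C * R ^ ε * β * Out K P R M)

/-- the large sieve -/
def S_Fin : Prop :=
  ∃ C : ℝ, 0 < C ∧ ∀ P R : ℝ, 0 ≤ P → 0 ≤ R → LSB P R (C * (P ^ (6 / 5 : ℝ) + R ^ (33 / 20 : ℝ)))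

end

end Pool.Agent.P.MP_26a8c3_nt.QL
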