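import Pool.Agent.P.MP_26a8c3_nt.QL.St

/-! One step of the large sieve. -/

namespace Pool.Agent.P.MP_26a8c3_nt.QL

open Finset Pool.Agent.P.MP_26a8c3_nt.QO
open scoped Classical ComplexConjugate

namespace StepP

theorem nr_nonneg (S : Finset O) (a : O → ℂ) : 0 ≤ nr S a :=
  Finset.sum_nonneg fun _ _ => sq_nonneg _

theorem big_of {K : ℝ} {m : O} (hm : SQO m) (hK : K < N m) : Big K m := by
  refine ⟨hm.1.1.ne_zero, fun v t _ e => ?_⟩
  have ht : IsUnit t := hm.1.2 t ⟨v, by rw [e]; ring⟩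
  have : N m = N v := by rw [e, map_mul, map_pow, isUnit_iff_N.1 ht]; simp
  rwa [← this]

theorem a0_pos : 0 < a0 := div_pos (mul_pos two_pos Real.pi_pos) sqrt3_pos

theorem G_nonneg (y : ℝ) : 0 ≤ G y := (Real.exp_pos _).le

theorem one_le_G {y : ℝ} (hy : y ≤ 1) : 1 ≤ Real.exp a0 * G y := by
  rw [G, ← Real.exp_add]
  exact Real.one_le_exp (by nlinarith [a0_pos])

theorem hasSum_big (k : Ok) (K : ℝ) (m n : O) {P : ℝ} (hP : 0 < P) :
    HasSum (fun x : O => if Big K x then eta m x * eta n x * (G (N x / P) : ℝ) else 0)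
      (BigS K m n P) := by
  refine (Summable.of_norm_bounded (k.sumG P hP) fun x => ?_).hasSum
  split_ifs
  · rw [norm_mul, norm_mul, Complex.norm_real, Real.norm_of_nonneg (G_nonneg _)]
    exact mul_le_of_le_one_left (G_nonneg _) (mul_le_one₀ (k.le _ _) (norm_nonneg _) (k.le _ _))
  · simpa using G_nonneg _

theorem large (k : Ok) (K : ℝ) {P : ℝ} (hP : 0 < P) (T S : Finset O) (a : O → ℂ)
    (hT : ∀ m ∈ T, Big K m ∧ (N m : ℝ) ≤ P) :
    ∑ m ∈ T, ‖U S a m‖ ^ 2 ≤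
      Real.exp a0 * ‖∑ m ∈ S, ∑ n ∈ S, a m * conj (a n) * BigS K m n P‖ := by
  have h1 := hasSum_sum fun m (_ : m ∈ S) => hasSum_sum fun n (_ : n ∈ S) =>
    (hasSum_big k K m n hP).mul_left (a m * conj (a n))
  have h2 : ∀ x : O, (∑ m ∈ S, ∑ n ∈ S, a m * conj (a n) *
      if Big K x then eta m x * eta n x * (G (N x / P) : ℝ) else 0) =
      ((if Big K x then G (N x / P) * ‖U S a x‖ ^ 2 else 0 : ℝ) : ℂ) := fun x => by
    split_ifs
    · rw [Complex.ofReal_mul, Complex.ofReal_pow, ← Complex.mul_conj', U, map_sum, sum_mul_sum,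
        mul_sum]
      refine sum_congr rfl fun m _ => ?_
      rw [mul_sum]
      refine sum_congr rfl fun n _ => ?_
      rw [map_mul, k.real]
      ring
    · simp
  simp only [h2] at h1
  have h3 := Complex.hasSum_re h1
  simp only [Complex.ofReal_re] at h3
  have h4 := sum_le_hasSum T (fun x _ => by
    split_ifs
    · exact mul_nonneg (G_nonneg _) (sq_nonneg _)
    · exact le_rfl) h3
  refine le_trans ?_ (mul_le_mul_of_nonneg_left (h4.trans (Complex.re_le_norm _))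
    (Real.exp_pos _).le)
  rw [mul_sum]
  refine sum_le_sum fun m hm => ?_
  rw [if_pos (hT m hm).1, ← mul_assoc]
  exact le_mul_of_one_le_left (sq_nonneg _) (one_le_G ((div_le_one hP).2 (hT m hm).2))

end StepP

open StepP in
theorem pStep (k : Ok) (ht : S_Triv) (hp : S_Part) (hk : S_Kern) (hs : S_Schur) (hst : S_Star)
    (hd : S_DualB) : S_Step := by
  intro ε hε
  have hε3 : 0 < ε / 3 := by positivity
  obtain ⟨Ct, hCt, -, ht⟩ := ht
  obtain ⟨Cp, hCp, hp⟩ := hp _ hε3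
  obtain ⟨Ck, hCk, hk⟩ := hk _ hε3
  obtain ⟨Cs, hCs, hs⟩ := hs _ hε3
  obtain ⟨Cx, hCx, hst⟩ := hst
  obtain ⟨Cd, hCd, hd⟩ := hd _ hε3
  have hea : 0 < Real.exp a0 := Real.exp_pos _
  set C' : ℝ := Ct + Real.exp a0 * (Cd * Cx + Cs * Ck) with hC'
  have hC'0 : 0 < C' := by positivity
  refine ⟨Cp * C' + 1, le_add_of_nonneg_left (mul_pos hCp hC'0).le, ?_⟩
  intro K P R β M hK hP hR hβ hM hH T S a hT hS
  have hP0 : 0 < P := by linarith
  have hR0 : 0 < R := by linarith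
  have hK0 : 0 < K := by linarith
  have hβ0 : 0 ≤ β := by linarith
  have hSt := hst K R β M hK hR hβ0 hM hH
  set r : ℝ := R ^ (ε / 3) with hr
  have hr1 : 1 ≤ r := Real.one_le_rpow hR hε3.le
  have hP4 : 1 ≤ P ^ (1 / 4 : ℝ) := Real.one_le_rpow hP (by norm_num)
  have hM0 : 0 ≤ M (R ^ 2 / P) := hM.1 _ (by positivity)
  set o1 : ℝ := √(P / K) * R + P / R * M (R ^ 2 / P) with ho1
  set o2 : ℝ := K * R * P ^ (1 / 4 : ℝ) with ho2
  set o3 : ℝ := K * P ^ (3 / 4 : ℝ) * R ^ (1 / 2 : ℝ) with ho3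
  have ho1' : 0 ≤ o1 := by positivity
  have ho2' : 0 ≤ o2 := by positivity
  have ho3' : 0 ≤ o3 := by positivity
  have hOut : Out K P R M = P + o1 + o2 + o3 := by rw [Out, ho1, ho2, ho3]; ring
  have hO0 : 0 ≤ Out K P R M := by rw [hOut]; positivity
  have hB : 0 ≤ C' * r ^ 2 * β * Out K P R M := by positivity
  have key := hp R (C' * r ^ 2 * β * Out K P R M) T hR hB ?_ S a hS
  · refine key.trans (mul_le_mul_of_nonneg_right ?_ (nr_nonneg S a))
    have e : R ^ ε = r ^ 3 := by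
      rw [hr, ← Real.rpow_natCast, ← Real.rpow_mul hR0.le]
      congr 1
      push_cast
      ring
    have : 0 ≤ r ^ 3 * β * Out K P R M := by positivity
    rw [e]
    linear_combination this
  intro R0 S a h1 h2 hS hlo h4
  have hn := nr_nonneg S a
  have hR00 : 0 < R0 := by linarith
  have hr0 : R0 ^ (ε / 3) ≤ r := Real.rpow_le_rpow hR00.le h2 hε3.le
  have hr00 : 0 < R0 ^ (ε / 3) := by positivity
  rw [← sum_filter_add_sum_filter_not T fun m => (N m : ℝ) ≤ K]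
  have hSR : In S R := fun n hn => ⟨(hS n hn).1, (hS n hn).2.trans h2⟩
  have b1 := ht K R hK0.le hR0.le (T.filter fun m => (N m : ℝ) ≤ K) S a
    (fun m hm => ⟨(hT m (mem_filter.1 hm).1).1, (mem_filter.1 hm).2⟩) hSR
  have b2 := large k K hP0 (T.filter fun m => ¬ (N m : ℝ) ≤ K) S a fun m hm =>
    ⟨big_of (hT m (mem_filter.1 hm).1).1 (not_le.1 (mem_filter.1 hm).2),
      (hT m (mem_filter.1 hm).1).2⟩
  have b3 := hd K P R (Cx * β) R0 M S a hK hP (by positivity) h1 h2 hM hSt hS hlo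
  set c : ℝ := Ck * R0 ^ (ε / 3) with hc
  have hc0 : 0 < c := by positivity
  have b4 := hs R0 (c * P) (c * (K * P ^ (1 / 4 : ℝ))) (c * (K * P ^ (3 / 4 : ℝ) / √R0)) S a
    (fun m n => BigS K m n P - Dual K P m n) h1 (by positivity) (by positivity) (by positivity) hS
    fun m hm n hn => by
      refine (hk K P R0 m n hK hP h1 (hS m hm).1 (hS n hn).1 (h4 m hm n hn) (hlo m hm) (hS m hm).2
        (hlo n hn) (hS n hn).2).trans_eq ?_
      split_ifs <;> ring
  have b5 : ∑ m ∈ S, ∑ n ∈ S, a m * conj (a n) * BigS K m n P =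
      ∑ m ∈ S, ∑ n ∈ S, a m * conj (a n) * Dual K P m n +
        ∑ m ∈ S, ∑ n ∈ S, a m * conj (a n) * (BigS K m n P - Dual K P m n) := by
    rw [← sum_add_distrib]
    refine sum_congr rfl fun m _ => ?_
    rw [← sum_add_distrib]
    exact sum_congr rfl fun n _ => by ring
  have b6 : c * P + c * (K * P ^ (1 / 4 : ℝ)) * R0 + c * (K * P ^ (3 / 4 : ℝ) / √R0) * R0 ≤
      c * (P + o2 + o3) := by
    have e1 : K * P ^ (1 / 4 : ℝ) * R0 ≤ o2 := by
      rw [ho2, mul_right_comm K R]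
      exact mul_le_mul_of_nonneg_left h2 (by positivity)
    have e2 : K * P ^ (3 / 4 : ℝ) / √R0 * R0 ≤ o3 := by
      rw [ho3, div_mul_eq_mul_div, mul_div_assoc, Real.div_sqrt, ← Real.sqrt_eq_rpow]
      exact mul_le_mul_of_nonneg_left (Real.sqrt_le_sqrt h2) (by positivity)
    linear_combination mul_le_mul_of_nonneg_left e1 hc0.le + mul_le_mul_of_nonneg_left e2 hc0.le
  set W : ℝ := r ^ 2 * β * Out K P R M with hW
  have hr2 : 1 ≤ r ^ 2 := one_le_pow₀ hr1
  have hOW : Out K P R M ≤ W := by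
    rw [hW]
    exact le_mul_of_one_le_left hO0 (one_le_mul_of_one_le_of_one_le hr2 hβ)
  have t1 : Ct * (K * R) ≤ Ct * W := by
    refine mul_le_mul_of_nonneg_left (le_trans ?_ hOW) (by linarith)
    have : K * R ≤ o2 := le_mul_of_one_le_right (by positivity) hP4
    rw [hOut]
    linarith
  have t2 : Cd * R0 ^ (ε / 3) * (Cx * β) * o1 ≤ Cd * Cx * W := by
    have e1 : R0 ^ (ε / 3) ≤ r ^ 2 := hr0.trans (le_self_pow₀ hr1 two_ne_zero)
    have e2 : o1 ≤ Out K P R M := by rw [hOut]; linarith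
    have e3 : R0 ^ (ε / 3) * β * o1 ≤ W :=
      mul_le_mul (mul_le_mul_of_nonneg_right e1 hβ0) e2 ho1' (by positivity)
    have := mul_le_mul_of_nonneg_left e3 (show 0 ≤ Cd * Cx by positivity)
    linarith
  have t3 : Cs * R0 ^ (ε / 3) * (c * (P + o2 + o3)) ≤ Cs * Ck * W := by
    have e1 : R0 ^ (ε / 3) * R0 ^ (ε / 3) ≤ r ^ 2 * β :=
      (mul_le_mul hr0 hr0 hr00.le (by positivity)).trans
        ((sq r).symm.trans_le (le_mul_of_one_le_right (sq_nonneg r) hβ))
    have e2 : P + o2 + o3 ≤ Out K P R M := by rw [hOut]; linarith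
    have e3 : R0 ^ (ε / 3) * R0 ^ (ε / 3) * (P + o2 + o3) ≤ W :=
      mul_le_mul e1 e2 (by positivity) (by positivity)
    have := mul_le_mul_of_nonneg_left e3 (show 0 ≤ Cs * Ck by positivity)
    rw [hc]
    linarith
  have u1 := b1.trans (mul_le_mul_of_nonneg_right t1 hn)
  have u2 := b3.trans (mul_le_mul_of_nonneg_right t2 hn)
  have u3 := b4.trans (mul_le_mul_of_nonneg_right
    ((mul_le_mul_of_nonneg_left b6 (by positivity)).trans t3) hn)
  rw [b5] at b2
  have u4 := b2.trans (mul_le_mul_of_nonneg_left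
    ((norm_add_le _ _).trans (add_le_add u2 u3)) hea.le)
  refine (add_le_add u1 u4).trans_eq ?_
  rw [hC', hW]
  ring

end Pool.Agent.P.MP_26a8c3_nt.QL
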